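import Mathlib

/-!
# A counterexample to Chamberland's conjecture in dimension four

In complex coordinates `(w, z)` of `ℝ⁴ = ℂ²` the map is
`F (w, z) = (e^z (1 + |e^{-z} w|²), e^{-z} w)`, which is periodic in `z` with period `2πi`.
It satisfies `F (e^t w, z + t) = (e^t F₁, F₂)` for `t ∈ ℂ`, so that the characteristic polynomial of
its Jacobian only depends on `u = e^{-z} w`; it is
`λ⁴ + (u₂² - 3 u₁² - 2) λ² + (1 + |u|²)² = (λ² - 1 - |u|²)² - (u₁² - 3 u₂²) λ²`,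
which does not vanish for `|λ| < 1 / 2`.
-/

set_option autoImplicit false

namespace Pool.Agent.K3h20.Chamb

open Real

/-- the four real coordinates of the map -/
noncomputable def F (v : Fin 4 → ℝ) : Fin 4 → ℝ :=
  ![(exp (v 2) + (v 0 ^ 2 + v 1 ^ 2) * exp (-v 2)) * cos (v 3),
    (exp (v 2) + (v 0 ^ 2 + v 1 ^ 2) * exp (-v 2)) * sin (v 3),
    exp (-v 2) * (v 0 * cos (v 3) + v 1 * sin (v 3)),
    exp (-v 2) * (v 1 * cos (v 3) - v 0 * sin (v 3))]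

theorem contDiff_F : ContDiff ℝ 1 F := by
  rw [contDiff_pi]
  intro i
  fin_cases i <;> simp [F] <;> fun_prop

/-- the Jacobian matrix -/
noncomputable def J (v : Fin 4 → ℝ) : Matrix (Fin 4) (Fin 4) ℝ :=
  !![2 * v 0 * exp (-v 2) * cos (v 3), 2 * v 1 * exp (-v 2) * cos (v 3),
      (exp (v 2) - (v 0 ^ 2 + v 1 ^ 2) * exp (-v 2)) * cos (v 3),
      -((exp (v 2) + (v 0 ^ 2 + v 1 ^ 2) * exp (-v 2)) * sin (v 3));
    2 * v 0 * exp (-v 2) * sin (v 3), 2 * v 1 * exp (-v 2) * sin (v 3),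
      (exp (v 2) - (v 0 ^ 2 + v 1 ^ 2) * exp (-v 2)) * sin (v 3),
      (exp (v 2) + (v 0 ^ 2 + v 1 ^ 2) * exp (-v 2)) * cos (v 3);
    exp (-v 2) * cos (v 3), exp (-v 2) * sin (v 3),
      -(exp (-v 2) * (v 0 * cos (v 3) + v 1 * sin (v 3))),
      exp (-v 2) * (v 1 * cos (v 3) - v 0 * sin (v 3));
    -(exp (-v 2) * sin (v 3)), exp (-v 2) * cos (v 3),
      -(exp (-v 2) * (v 1 * cos (v 3) - v 0 * sin (v 3))),
      -(exp (-v 2) * (v 0 * cos (v 3) + v 1 * sin (v 3)))]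

theorem hasFDerivAt_F (v : Fin 4 → ℝ) :
    HasFDerivAt F (Matrix.toLin' (J v)).toContinuousLinearMap v := by
  rw [hasFDerivAt_pi']
  have h0 : ∀ i : Fin 4, HasFDerivAt (fun w : Fin 4 → ℝ => w i)
      (ContinuousLinearMap.proj (R := ℝ) (φ := fun _ : Fin 4 => ℝ) i) v := fun i =>
    hasFDerivAt_apply i v
  have hE := (h0 2).exp
  have he := ((h0 2).neg).exp
  have hc := (h0 3).cos
  have hs := (h0 3).sin
  have hQ := ((h0 0).pow 2).add ((h0 1).pow 2)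
  have hG := hE.add (hQ.mul he)
  intro i
  fin_cases i
  · refine (hG.mul hc).congr_fderiv ?_
    ext w
    simp [J, Matrix.toLin'_apply, dotProduct, Fin.sum_univ_four]
    ring
  · refine (hG.mul hs).congr_fderiv ?_
    ext w
    simp [J, Matrix.toLin'_apply, dotProduct, Fin.sum_univ_four]
    ring
  · refine (he.mul (((h0 0).mul hc).add ((h0 1).mul hs))).congr_fderiv ?_
    ext w
    simp [J, Matrix.toLin'_apply, dotProduct, Fin.sum_univ_four]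
    ring
  · refine (he.mul (((h0 1).mul hc).sub ((h0 0).mul hs))).congr_fderiv ?_
    ext w
    simp [J, Matrix.toLin'_apply, dotProduct, Fin.sum_univ_four]
    ring

theorem toMatrix_fderiv (v : Fin 4 → ℝ) :
    LinearMap.toMatrix' ((fderiv ℝ F v : (Fin 4 → ℝ) →L[ℝ] (Fin 4 → ℝ)) :
      (Fin 4 → ℝ) →ₗ[ℝ] (Fin 4 → ℝ)) = J v := by
  rw [(hasFDerivAt_F v).fderiv]
  simp

/-- the characteristic polynomial of the Jacobian matrix -/
theorem charpoly_eval (v : Fin 4 → ℝ) (z : ℂ) :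
    Polynomial.aeval z (J v).charpoly =
      z ^ 4 + ((((exp (-v 2) * (v 1 * cos (v 3) - v 0 * sin (v 3))) ^ 2 : ℝ) : ℂ) -
        3 * (((exp (-v 2) * (v 0 * cos (v 3) + v 1 * sin (v 3))) ^ 2 : ℝ) : ℂ) - 2) * z ^ 2 +
        (((1 + exp (-v 2) ^ 2 * (v 0 ^ 2 + v 1 ^ 2)) ^ 2 : ℝ) : ℂ) := by
  have h1 : Polynomial.aeval z (J v).charpoly =
      (Matrix.scalar (Fin 4) z - (J v).map (algebraMap ℝ ℂ)).det := by
    rw [← Matrix.eval_charpoly, Matrix.charpoly_map, Polynomial.eval_map_algebraMap]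
  rw [h1]
  have hcs : ((cos (v 3) : ℝ) : ℂ) ^ 2 + ((sin (v 3) : ℝ) : ℂ) ^ 2 = 1 := by
    have := Real.cos_sq_add_sin_sq (v 3)
    exact_mod_cast this
  have hEe : ((exp (v 2) : ℝ) : ℂ) * ((exp (-v 2) : ℝ) : ℂ) = 1 := by
    have : exp (v 2) * exp (-v 2) = 1 := by rw [← Real.exp_add]; simp
    exact_mod_cast this
  generalize hc' : cos (v 3) = c' at *
  generalize hs' : sin (v 3) = s' at *
  generalize hE' : exp (v 2) = E' at *
  generalize he' : exp (-v 2) = e' at *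
  generalize hc : (c' : ℂ) = c at *
  generalize hs : (s' : ℂ) = s at *
  generalize hE : (E' : ℂ) = E at *
  generalize he : (e' : ℂ) = e at *
  generalize ha : ((v 0 : ℝ) : ℂ) = a at *
  generalize hb : ((v 1 : ℝ) : ℂ) = b at *
  simp [J, Matrix.det_succ_row_zero, Fin.sum_univ_succ, Fin.succAbove, hc', hs', hE', he', hc, hs,
    hE, he, ha, hb, Matrix.scalar_apply, Matrix.diagonal]
  linear_combination ((-2*z^2*E*e) + (2*a^2*c^2*E*e^3) + (1*a^4*c^2*e^4) + (2*a^2*b^2*c^2*e^4) + (2*b^2*c^2*E*e^3) + (1*b^4*c^2*e^4) + (1*c^2*E^2*e^2) + (2*a^2*s^2*E*e^3) + (2*b^2*s^2*E*e^3) + (1*s^2*E^2*e^2) + (1*a^4*s^2*e^4) + (2*a^2*b^2*s^2*e^4) + (1*b^4*s^2*e^4) + (2*a^2*E*e^3) + (2*b^2*E*e^3) + (1*E^2*e^2) + (1*a^4*e^4) + (2*a^2*b^2*e^4) + (1*b^4*e^4)) * hcs + ((-2*z^2) + (2*a^2*e^2) + (2*b^2*e^2) + (1*E*e) + (1)) * hEe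

theorem eig_bound (v : Fin 4 → ℝ) (z : ℂ) (h : Polynomial.aeval z (J v).charpoly = 0) :
    1 / 2 ≤ ‖z‖ := by
  rw [charpoly_eval] at h
  set p : ℝ := exp (-v 2) * (v 0 * cos (v 3) + v 1 * sin (v 3)) with hp
  set q : ℝ := exp (-v 2) * (v 1 * cos (v 3) - v 0 * sin (v 3)) with hq
  have hpq : exp (-v 2) ^ 2 * (v 0 ^ 2 + v 1 ^ 2) = p ^ 2 + q ^ 2 := by
    rw [hp, hq]
    linear_combination (-(exp (-v 2) ^ 2 * (v 0 ^ 2 + v 1 ^ 2))) * Real.cos_sq_add_sin_sq (v 3)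
  rw [hpq] at h
  have h2 : (z ^ 2 - ((1 + (p ^ 2 + q ^ 2) : ℝ) : ℂ)) ^ 2 = ((p ^ 2 - 3 * q ^ 2 : ℝ) : ℂ) * z ^ 2 := by
    push_cast at h ⊢
    linear_combination h
  have h3 : ‖z ^ 2 - ((1 + (p ^ 2 + q ^ 2) : ℝ) : ℂ)‖ ^ 2 = |p ^ 2 - 3 * q ^ 2| * ‖z‖ ^ 2 := by
    rw [← norm_pow, h2, norm_mul, norm_pow, Complex.norm_real, Real.norm_eq_abs]
  by_contra hlt
  push Not at hlt
  have hz0 : 0 ≤ ‖z‖ := norm_nonneg z
  have hz : ‖z‖ ^ 2 ≤ 1 / 4 := by nlinarith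
  have h4 : (1 + (p ^ 2 + q ^ 2)) - ‖z‖ ^ 2 ≤ ‖z ^ 2 - ((1 + (p ^ 2 + q ^ 2) : ℝ) : ℂ)‖ := by
    have h5 := norm_sub_norm_le (((1 + (p ^ 2 + q ^ 2) : ℝ) : ℂ)) (z ^ 2)
    rw [Complex.norm_real, Real.norm_eq_abs, abs_of_pos (by positivity), norm_pow, norm_sub_rev]
      at h5
    exact h5
  have h6 : |p ^ 2 - 3 * q ^ 2| ≤ 3 * (p ^ 2 + q ^ 2) := by
    rw [abs_le]
    constructor <;> nlinarith [sq_nonneg p, sq_nonneg q]
  set t : ℝ := p ^ 2 + q ^ 2 with ht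
  have ht0 : 0 ≤ t := by positivity
  have h7 : (3 / 4 + t) ≤ ‖z ^ 2 - ((1 + t : ℝ) : ℂ)‖ := by linarith
  have h8 : (3 / 4 + t) ^ 2 ≤ ‖z ^ 2 - ((1 + t : ℝ) : ℂ)‖ ^ 2 := by
    apply pow_le_pow_left₀ (by positivity) h7
  have h9 : |p ^ 2 - 3 * q ^ 2| * ‖z‖ ^ 2 ≤ 3 * t * (1 / 4) := by
    apply mul_le_mul h6 hz (by positivity) (by positivity)
  nlinarith

theorem det_ne (v : Fin 4 → ℝ) : (J v).det ≠ 0 := by
  intro h
  have h1 := eig_bound v 0 (by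
    have h2 : Polynomial.aeval (0 : ℂ) (J v).charpoly = algebraMap ℝ ℂ ((J v).charpoly.coeff 0) := by
      rw [Polynomial.coeff_zero_eq_aeval_zero' ]
    rw [h2]
    have h3 := Matrix.det_eq_sign_charpoly_coeff (J v)
    rw [h] at h3
    have h4 : (J v).charpoly.coeff 0 = 0 := by
      simpa using h3.symm
    rw [h4, map_zero])
  rw [norm_zero] at h1
  norm_num at h1

theorem not_injective : ¬ Function.Injective F := by
  intro h
  have h1 : F ![0, 0, 0, 0] = F ![0, 0, 0, 2 * π] := by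
    simp [F]
  have h2 := congrFun (h h1) 3
  simp at h2

end Pool.Agent.K3h20.Chamb
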