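import Pool.Agent.K3h20.Magnus

/-!
# Two Heisenberg representations of `IA_3` and a relation of degree three
-/

set_option autoImplicit false

namespace Pool.Agent.K3h20.IA3

open Pool.Agent.K3h20.Magnus

/-- `IA_n`: the automorphisms of the free group of rank `n` which induce the identity on the
abelianization. -/
def IA (n : ℕ) : Subgroup (MulAut (FreeGroup (Fin n))) where
  carrier := {g | ∀ w, Abelianization.of (g w) = Abelianization.of w}
  one_mem' := fun _ => rfl
  mul_mem' := fun {a b} ha hb w => by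
    rw [MulAut.mul_apply, ha, hb]
  inv_mem' := fun {a} ha w => by
    have h := ha (a⁻¹ w)
    rw [MulAut.apply_inv_self] at h
    exact h.symm

/-- the degree one Magnus coefficient as a homomorphism -/
def e1hom {n : ℕ} (i : Fin n) : FreeGroup (Fin n) →* Multiplicative ℤ where
  toFun w := Multiplicative.ofAdd ((mag w).e1 i)
  map_one' := by simp
  map_mul' u v := by simp

theorem triv_of_mem {n : ℕ} {g : MulAut (FreeGroup (Fin n))} (hg : g ∈ IA n) : Triv g := by
  intro w
  funext i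
  have h1 : e1hom i (g w) = e1hom i w := by
    rw [← Abelianization.lift_apply_of (e1hom i) (g w), hg w, Abelianization.lift_apply_of]
  exact Multiplicative.ofAdd.injective h1

/-- Magnus coefficients of the images of the generators -/
def c2 (g : IA 3) (l i j : Fin 3) : ℤ := (mag ((g : MulAut (FreeGroup (Fin 3))) (.of l))).e2 i j

/-- Magnus coefficients of the images of the generators -/
def c3 (g : IA 3) (l i j k : Fin 3) : ℤ := (mag ((g : MulAut (FreeGroup (Fin 3))) (.of l))).e3 i j k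

theorem e1_of (g : IA 3) (l i : Fin 3) :
    (mag ((g : MulAut (FreeGroup (Fin 3))) (.of l))).e1 i = if i = l then 1 else 0 := by
  rw [triv_of_mem g.2]; simp [X]

theorem c2_mul (g h : IA 3) (l i j : Fin 3) : c2 (g * h) l i j = c2 g l i j + c2 h l i j := by
  unfold c2
  have h1 : ((g * h : IA 3) : MulAut (FreeGroup (Fin 3))) (.of l) =
      (g : MulAut (FreeGroup (Fin 3))) ((h : MulAut (FreeGroup (Fin 3))) (.of l)) := rfl
  rw [h1, mag_apply _ (triv_of_mem g.2)]
  simp only [sub, MonoidHom.coe_mk, OneHom.coe_mk, e1_of]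
  simp
  ring

theorem c3_mul (g h : IA 3) (l i j k : Fin 3) : c3 (g * h) l i j k = c3 h l i j k + c3 g l i j k +
    ∑ m, c2 h l m k * c2 g m i j + ∑ m, c2 h l i m * c2 g m j k := by
  unfold c2 c3
  have h1 : ((g * h : IA 3) : MulAut (FreeGroup (Fin 3))) (.of l) =
      (g : MulAut (FreeGroup (Fin 3))) ((h : MulAut (FreeGroup (Fin 3))) (.of l)) := rfl
  rw [h1, mag_apply _ (triv_of_mem g.2)]
  simp only [sub, MonoidHom.coe_mk, OneHom.coe_mk, e1_of]
  simp

theorem c2_diag (g : IA 3) (l i : Fin 3) : c2 g l i i = 0 := by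
  have h := shuffle ((g : MulAut (FreeGroup (Fin 3))) (.of l)) i i
  rw [e1_of] at h
  have h2 : (mag ((g : MulAut (FreeGroup (Fin 3))) (.of l))).e2 i i = c2 g l i i := rfl
  rw [h2] at h
  split_ifs at h <;> omega

theorem c2_anti (g : IA 3) (l i j : Fin 3) : c2 g l i j = - c2 g l j i := by
  by_cases hij : i = j
  · subst hij
    rw [c2_diag]; rfl
  have h := shuffle ((g : MulAut (FreeGroup (Fin 3))) (.of l)) i j
  rw [e1_of, e1_of, if_neg hij] at h
  have h2 : (mag ((g : MulAut (FreeGroup (Fin 3))) (.of l))).e2 i j = c2 g l i j := rfl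
  have h3 : (mag ((g : MulAut (FreeGroup (Fin 3))) (.of l))).e2 j i = c2 g l j i := rfl
  rw [h2, h3] at h
  split_ifs at h with h4 h5 <;> first | (exact absurd (h4.trans h5.symm) hij) | omega

/-- the homomorphism `A` -/
def A (g : IA 3) : ℤ := c2 g 0 0 1 - c2 g 2 2 1

/-- the homomorphism `Γ` -/
def Ga (g : IA 3) : ℤ := c2 g 0 0 2 - c2 g 1 1 2

/-- the homomorphism `C` -/
def C (g : IA 3) : ℤ := c2 g 0 1 2

/-- the first correction -/
def f (g : IA 3) : ℤ :=
  c3 g 0 0 1 2 - c3 g 1 1 1 2 - c2 g 0 0 1 * c2 g 1 1 2 + c2 g 0 1 2 * c2 g 1 1 0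

/-- the second correction -/
def mu (g : IA 3) : ℤ := c3 g 0 1 2 2 - c2 g 0 1 2 * c2 g 1 1 2

theorem A_mul (g h : IA 3) : A (g * h) = A g + A h := by
  simp only [A, c2_mul]; ring

theorem Ga_mul (g h : IA 3) : Ga (g * h) = Ga g + Ga h := by
  simp only [Ga, c2_mul]; ring

theorem C_mul (g h : IA 3) : C (g * h) = C g + C h := by
  simp only [C, c2_mul]

theorem f_mul (g h : IA 3) : f (g * h) = f g + f h + A g * Ga h := by
  simp only [f, A, Ga, c2_mul, c3_mul, Fin.sum_univ_three, c2_diag]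
  rw [c2_anti g 2 1 2, c2_anti g 1 0 1]
  ring

theorem mu_mul (g h : IA 3) : mu (g * h) = mu g + mu h + C g * Ga h := by
  simp only [mu, C, Ga, c2_mul, c3_mul, Fin.sum_univ_three, c2_diag]
  ring

/-! ### Three elements -/

/-- the generators -/
abbrev x : FreeGroup (Fin 3) := .of 0
/-- the generators -/
abbrev y : FreeGroup (Fin 3) := .of 1
/-- the generators -/
abbrev z : FreeGroup (Fin 3) := .of 2

/-- an endomorphism which fixes `y` and `z` -/
def endo (w : FreeGroup (Fin 3)) : FreeGroup (Fin 3) →* FreeGroup (Fin 3) :=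
  FreeGroup.lift ![w, y, z]

/-- an automorphism which fixes `y` and `z` -/
def mk (w w' : FreeGroup (Fin 3)) (h1 : endo w w' = x) (h2 : endo w' w = x) :
    MulAut (FreeGroup (Fin 3)) :=
  MonoidHom.toMulEquiv (endo w) (endo w')
    (by
      apply FreeGroup.ext_hom
      intro i
      fin_cases i
      · simpa [endo] using h2
      · simp [endo, y]
      · simp [endo, z])
    (by
      apply FreeGroup.ext_hom
      intro i
      fin_cases i
      · simpa [endo] using h1
      · simp [endo, y]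
      · simp [endo, z])

theorem mk_apply (w w' : FreeGroup (Fin 3)) (h1 : endo w w' = x) (h2 : endo w' w = x)
    (v : FreeGroup (Fin 3)) : mk w w' h1 h2 v = endo w v := rfl

theorem mk_mem (w w' : FreeGroup (Fin 3)) (h1 : endo w w' = x) (h2 : endo w' w = x)
    (h : Abelianization.of w = Abelianization.of x) : mk w w' h1 h2 ∈ IA 3 := by
  intro v
  rw [mk_apply]
  have : (Abelianization.of (G := FreeGroup (Fin 3))).comp (endo w) = Abelianization.of := by
    apply FreeGroup.ext_hom
    intro i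
    fin_cases i
    · simpa [endo] using h
    · simp [endo, y]
    · simp [endo, z]
  exact DFunLike.congr_fun this v

open scoped commutatorElement

/-- `x ↦ y⁻¹ x y` -/
def gY : IA 3 := ⟨mk (y⁻¹ * x * y) (y * x * y⁻¹) (by simp [endo, x, y, z]; group)
  (by simp [endo, x, y, z]; group), mk_mem _ _ _ _ (by simp [mul_comm])⟩

/-- `x ↦ z⁻¹ x z` -/
def gZ : IA 3 := ⟨mk (z⁻¹ * x * z) (z * x * z⁻¹) (by simp [endo, x, y, z]; group)
  (by simp [endo, x, y, z]; group), mk_mem _ _ _ _ (by simp [mul_comm])⟩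

/-- `x ↦ x [y, z]` -/
def gC : IA 3 := ⟨mk (x * ⁅y, z⁆) (x * ⁅y, z⁆⁻¹)
  (by simp [endo, x, y, z, commutatorElement_def]; group)
  (by simp [endo, x, y, z, commutatorElement_def]; group),
  mk_mem _ _ _ _ (by simp [commutatorElement_def, mul_comm])⟩

theorem gY_apply (v : FreeGroup (Fin 3)) :
    (gY : MulAut (FreeGroup (Fin 3))) v = endo (y⁻¹ * x * y) v := rfl

theorem gZ_apply (v : FreeGroup (Fin 3)) :
    (gZ : MulAut (FreeGroup (Fin 3))) v = endo (z⁻¹ * x * z) v := rfl

theorem gC_apply (v : FreeGroup (Fin 3)) :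
    (gC : MulAut (FreeGroup (Fin 3))) v = endo (x * ⁅y, z⁆) v := rfl

theorem gYinv_apply (v : FreeGroup (Fin 3)) :
    ((gY⁻¹ : IA 3) : MulAut (FreeGroup (Fin 3))) v = endo (y * x * y⁻¹) v := rfl

theorem gZinv_apply (v : FreeGroup (Fin 3)) :
    ((gZ⁻¹ : IA 3) : MulAut (FreeGroup (Fin 3))) v = endo (z * x * z⁻¹) v := rfl

theorem values_Y : A gY = 1 ∧ Ga gY = 0 ∧ C gY = 0 := by
  simp [A, Ga, C, c2, gY_apply, endo, x, y, z, X]

theorem values_Z : A gZ = 0 ∧ Ga gZ = 1 ∧ C gZ = 0 := by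
  simp [A, Ga, C, c2, gZ_apply, endo, x, y, z, X]

theorem values_C : A gC = 0 ∧ Ga gC = 0 ∧ C gC = 1 := by
  simp [A, Ga, C, c2, gC_apply, endo, x, y, z, X, commutatorElement_def]

/-- the relation of degree three: `[gC, [gY, gZ]] = 1` -/
theorem relation : ⁅gC, ⁅gY, gZ⁆⁆ = 1 := by
  rw [commutatorElement_eq_one_iff_mul_comm]
  apply Subtype.ext
  have h : ∀ v, ((gC * ⁅gY, gZ⁆ : IA 3) : MulAut (FreeGroup (Fin 3))) v =
      ((⁅gY, gZ⁆ * gC : IA 3) : MulAut (FreeGroup (Fin 3))) v := by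
    intro v
    simp only [commutatorElement_def]
    change (gC : MulAut (FreeGroup (Fin 3))) ((gY : MulAut (FreeGroup (Fin 3)))
      ((gZ : MulAut (FreeGroup (Fin 3))) (((gY⁻¹ : IA 3) : MulAut (FreeGroup (Fin 3)))
      (((gZ⁻¹ : IA 3) : MulAut (FreeGroup (Fin 3))) v)))) =
      (gY : MulAut (FreeGroup (Fin 3)))
      ((gZ : MulAut (FreeGroup (Fin 3))) (((gY⁻¹ : IA 3) : MulAut (FreeGroup (Fin 3)))
      (((gZ⁻¹ : IA 3) : MulAut (FreeGroup (Fin 3)))
        ((gC : MulAut (FreeGroup (Fin 3))) v))))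
    rw [gC_apply, gY_apply, gZ_apply, gYinv_apply, gZinv_apply, gC_apply, gY_apply, gZ_apply,
      gYinv_apply, gZinv_apply]
    have : ((((endo (x * ⁅y, z⁆)).comp (endo (y⁻¹ * x * y))).comp (endo (z⁻¹ * x * z))).comp
        (endo (y * x * y⁻¹))).comp (endo (z * x * z⁻¹)) =
        ((((endo (y⁻¹ * x * y)).comp (endo (z⁻¹ * x * z))).comp
        (endo (y * x * y⁻¹))).comp (endo (z * x * z⁻¹))).comp (endo (x * ⁅y, z⁆)) := by
      apply FreeGroup.ext_hom
      intro i
      fin_cases i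
      · simp [endo, x, y, z, commutatorElement_def]
        group
      · simp [endo, y]
      · simp [endo, z]
    exact DFunLike.congr_fun this v
  exact MulEquiv.ext h

end Pool.Agent.K3h20.IA3
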