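import Mathlib

/-!
# Magnus coefficients of degree at most three, and automorphisms which act trivially on the
abelianization
-/

set_option autoImplicit false

namespace Pool.Agent.K3h20.Magnus

/-- the coefficients of degree 1, 2, 3 of a formal power series with constant term one in the
noncommuting variables `X i`, `i : ι` -/
@[ext]
structure Mg (ι : Type) where
  e1 : ι → ℤ
  e2 : ι → ι → ℤ
  e3 : ι → ι → ι → ℤ

namespace Mg

variable {ι : Type}

instance : One (Mg ι) := ⟨⟨0, 0, 0⟩⟩

instance : Mul (Mg ι) := ⟨fun u v =>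
  ⟨fun i => u.e1 i + v.e1 i, fun i j => u.e2 i j + v.e2 i j + u.e1 i * v.e1 j,
    fun i j k => u.e3 i j k + v.e3 i j k + u.e1 i * v.e2 j k + u.e2 i j * v.e1 k⟩⟩

instance : Inv (Mg ι) := ⟨fun u =>
  ⟨fun i => - u.e1 i, fun i j => - u.e2 i j + u.e1 i * u.e1 j,
    fun i j k => - u.e3 i j k + u.e1 i * u.e2 j k + u.e2 i j * u.e1 k
      - u.e1 i * u.e1 j * u.e1 k⟩⟩

@[simp] theorem one_e1 (i : ι) : (1 : Mg ι).e1 i = 0 := rfl
@[simp] theorem one_e2 (i j : ι) : (1 : Mg ι).e2 i j = 0 := rfl
@[simp] theorem one_e3 (i j k : ι) : (1 : Mg ι).e3 i j k = 0 := rfl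
@[simp] theorem mul_e1 (u v : Mg ι) (i : ι) : (u * v).e1 i = u.e1 i + v.e1 i := rfl
@[simp] theorem mul_e2 (u v : Mg ι) (i j : ι) :
    (u * v).e2 i j = u.e2 i j + v.e2 i j + u.e1 i * v.e1 j := rfl
@[simp] theorem mul_e3 (u v : Mg ι) (i j k : ι) : (u * v).e3 i j k =
    u.e3 i j k + v.e3 i j k + u.e1 i * v.e2 j k + u.e2 i j * v.e1 k := rfl
@[simp] theorem inv_e1 (u : Mg ι) (i : ι) : (u⁻¹).e1 i = - u.e1 i := rfl
@[simp] theorem inv_e2 (u : Mg ι) (i j : ι) :
    (u⁻¹).e2 i j = - u.e2 i j + u.e1 i * u.e1 j := rfl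
@[simp] theorem inv_e3 (u : Mg ι) (i j k : ι) : (u⁻¹).e3 i j k =
    - u.e3 i j k + u.e1 i * u.e2 j k + u.e2 i j * u.e1 k - u.e1 i * u.e1 j * u.e1 k := rfl

instance : Group (Mg ι) := Group.ofLeftAxioms
  (by intro a b c; ext <;> simp <;> ring)
  (by intro a; ext; all_goals simp)
  (by intro a; ext <;> simp <;> ring)

end Mg

variable {ι : Type} [DecidableEq ι]

/-- `1 + X i` -/
def X (i : ι) : Mg ι := ⟨fun j => if j = i then 1 else 0, 0, 0⟩

/-- the Magnus expansion up to degree three -/
def mag : FreeGroup ι →* Mg ι := FreeGroup.lift X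

@[simp] theorem mag_of (i : ι) : mag (FreeGroup.of i) = X i := by simp [mag]

/-- the shuffle relation in degree two -/
theorem shuffle (w : FreeGroup ι) (i j : ι) :
    (mag w).e2 i j + (mag w).e2 j i + (if i = j then (mag w).e1 i else 0) =
      (mag w).e1 i * (mag w).e1 j := by
  induction w using FreeGroup.induction_on with
  | C1 => simp
  | of x =>
    by_cases h : i = j
    · subst h; simp [X]
    · have : ¬ (i = x ∧ j = x) := fun h' => h (h'.1.trans h'.2.symm)
      simp [X, h]
      tauto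
  | inv_of x _ =>
    by_cases h : i = j
    · subst h; simp [X]; split_ifs <;> simp
    · have : ¬ (i = x ∧ j = x) := fun h' => h (h'.1.trans h'.2.symm)
      simp [X, h]
      by_cases h1 : i = x
      · have h2 : j ≠ x := fun h' => this ⟨h1, h'⟩
        simp [h1, h2]
      · simp [h1]
  | mul x y hx hy =>
    simp only [map_mul, Mg.mul_e1, Mg.mul_e2]
    by_cases h : i = j
    · subst h
      simp only [if_true] at hx hy ⊢
      linear_combination hx + hy
    · simp only [h, if_false] at hx hy ⊢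
      linear_combination hx + hy

variable [Fintype ι]

/-- substitution of power series with the given higher coefficients for the variables -/
def sub (G2 : ι → ι → ι → ℤ) (G3 : ι → ι → ι → ι → ℤ) : Mg ι →* Mg ι where
  toFun u := ⟨u.e1, fun i j => u.e2 i j + ∑ l, u.e1 l * G2 l i j,
    fun i j k => u.e3 i j k + ∑ l, u.e1 l * G3 l i j k + ∑ l, u.e2 l k * G2 l i j +
      ∑ l, u.e2 i l * G2 l j k⟩
  map_one' := by ext <;> simp
  map_mul' u v := by
    ext i j k
    · simp
    · simp [Finset.sum_add_distrib, add_mul]; ring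
    · simp only [Mg.mul_e1, Mg.mul_e2, Mg.mul_e3, add_mul, Finset.sum_add_distrib]
      simp only [mul_add, Finset.mul_sum, Finset.sum_mul]
      have e1 : ∀ a : ι → ℤ, ∑ l, u.e1 l * v.e1 k * a l = ∑ l, u.e1 l * a l * v.e1 k :=
        fun a => Finset.sum_congr rfl fun l _ => by ring
      have e2 : ∀ a : ι → ℤ, ∑ l, u.e1 i * v.e1 l * a l = ∑ l, u.e1 i * (v.e1 l * a l) :=
        fun a => Finset.sum_congr rfl fun l _ => by ring
      rw [e1, e2]
      ring

/-- `g` acts trivially on the abelianization -/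
def Triv (g : FreeGroup ι ≃* FreeGroup ι) : Prop :=
  ∀ w, (mag (g w)).e1 = (mag w).e1

theorem mag_apply (g : FreeGroup ι ≃* FreeGroup ι) (hg : Triv g) (w : FreeGroup ι) :
    mag (g w) = sub (fun l i j => (mag (g (FreeGroup.of l))).e2 i j)
      (fun l i j k => (mag (g (FreeGroup.of l))).e3 i j k) (mag w) := by
  have : (mag (ι := ι)).comp (g : FreeGroup ι →* FreeGroup ι) =
      (sub (fun l i j => (mag (g (FreeGroup.of l))).e2 i j)
      (fun l i j k => (mag (g (FreeGroup.of l))).e3 i j k)).comp mag := by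
    apply FreeGroup.ext_hom
    intro m
    ext i j k
    · have := congrFun (hg (FreeGroup.of m)) i
      simpa [sub] using this
    · simp [sub, X]
    · simp [sub, X]
  exact DFunLike.congr_fun this w

end Pool.Agent.K3h20.Magnus
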