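import Mathlib

/-!
# Near-modular sets and independent Stanley sequences
-/

set_option autoImplicit false

namespace Pool.Agent.K3h20.Stan

/-- near-modular sets: 3-free modulo `N`, and every residue is in `A` or is covered by `x < y`. -/
def NM (N : ℕ) (A : Finset ℕ) : Prop :=
  0 < N ∧
  (∀ x ∈ A, ∀ y ∈ A, ∀ z ∈ A, (N : ℤ) ∣ (x : ℤ) + z - 2 * y → x = y ∧ z = y) ∧
  (∀ r : ℤ, (∃ a ∈ A, (N : ℤ) ∣ r - a) ∨
    (∃ x ∈ A, ∃ y ∈ A, x < y ∧ (N : ℤ) ∣ r + x - 2 * y))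

theorem NM.inj {N : ℕ} {A : Finset ℕ} (h : NM N A) {x y : ℕ} (hx : x ∈ A) (hy : y ∈ A)
    (hd : (N : ℤ) ∣ (x : ℤ) - y) : x = y := by
  have := h.2.1 x hx y hy x hx
    (by
      have h2 : ((x : ℤ) + x - 2 * y) = 2 * ((x : ℤ) - y) := by ring
      rw [h2]; exact Dvd.dvd.mul_left hd 2)
  exact this.1

/-- the layered (twisted) product -/
def lay (M : ℕ) (L P Q : Finset ℕ) : Finset ℕ :=
  L.biUnion (fun b => (if b = 0 then P else Q).image (fun a => b + M * a))

theorem mem_lay {M : ℕ} {L P Q : Finset ℕ} {v : ℕ} :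
    v ∈ lay M L P Q ↔ ∃ b ∈ L, ∃ a ∈ (if b = 0 then P else Q), b + M * a = v := by
  simp only [lay, Finset.mem_biUnion, Finset.mem_image]

theorem lay_nm {M N : ℕ} {L P Q : Finset ℕ} (hL : NM M L) (hP : NM N P) (hQ : NM N Q)
    (hred : ∀ r : ℤ, (∃ a ∈ L, (M : ℤ) ∣ r - a) ∨
      (∃ x ∈ L, ∃ y ∈ L, x < y ∧ (x ≠ 0 ∨ P = Q) ∧ (M : ℤ) ∣ r + x - 2 * y)) :
    NM (M * N) (lay M L P Q) := by
  have hR : ∀ b : ℕ, NM N (if b = 0 then P else Q) := by
    intro b; split_ifs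
    · exact hP
    · exact hQ
  have hM0 : (M : ℤ) ≠ 0 := by exact_mod_cast hL.1.ne'
  have hN0 : (N : ℤ) ≠ 0 := by exact_mod_cast hP.1.ne'
  refine ⟨Nat.mul_pos hL.1 hP.1, ?_, ?_⟩
  · intro x hx y hy z hz hd
    rw [mem_lay] at hx hy hz
    obtain ⟨b1, hb1, a1, ha1, rfl⟩ := hx
    obtain ⟨b2, hb2, a2, ha2, rfl⟩ := hy
    obtain ⟨b3, hb3, a3, ha3, rfl⟩ := hz
    push_cast at hd
    obtain ⟨c, hc⟩ := hd
    have h1 : (M : ℤ) ∣ (b1 : ℤ) + b3 - 2 * b2 := by
      refine ⟨N * c - a1 - a3 + 2 * a2, ?_⟩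
      linear_combination hc
    obtain ⟨e1, e2⟩ := hL.2.1 b1 hb1 b2 hb2 b3 hb3 h1
    subst e1; subst e2
    have h2 : (N : ℤ) ∣ (a1 : ℤ) + a3 - 2 * a2 := by
      refine ⟨c, ?_⟩
      apply mul_left_cancel₀ hM0
      linear_combination hc
    obtain ⟨e3, e4⟩ := (hR b3).2.1 a1 ha1 a2 ha2 a3 ha3 h2
    subst e3; subst e4
    exact ⟨rfl, rfl⟩
  · intro r
    rcases hred r with ⟨b, hb, w, hw⟩ | ⟨x, hx, y, hy, hxy, hPQ, w, hw⟩
    · rcases (hR b).2.2 w with ⟨a, ha, c, hc⟩ | ⟨u, hu, v, hv, huv, c, hc⟩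
      · left
        refine ⟨b + M * a, mem_lay.2 ⟨b, hb, a, ha, rfl⟩, c, ?_⟩
        push_cast
        linear_combination hw + (M : ℤ) * hc
      · right
        refine ⟨b + M * u, mem_lay.2 ⟨b, hb, u, hu, rfl⟩, b + M * v,
          mem_lay.2 ⟨b, hb, v, hv, rfl⟩, ?_, c, ?_⟩
        · have := Nat.mul_lt_mul_of_pos_left huv hL.1
          omega
        · push_cast
          linear_combination hw + (M : ℤ) * hc
    · right
      have hy0 : y ≠ 0 := by omega
      have hRx : (if x = 0 then P else Q) = Q := by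
        rcases hPQ with h | h
        · simp [h]
        · simp [h]
      have hRy : (if y = 0 then P else Q) = Q := by simp [hy0]
      -- r = 2y - x + M w
      rcases hQ.2.2 w with ⟨a, ha, c, hc⟩ | ⟨u, hu, v, hv, huv, c, hc⟩
      · refine ⟨x + M * a, mem_lay.2 ⟨x, hx, a, by rw [hRx]; exact ha, rfl⟩, y + M * a,
          mem_lay.2 ⟨y, hy, a, by rw [hRy]; exact ha, rfl⟩, by omega, c, ?_⟩
        push_cast
        linear_combination hw + (M : ℤ) * hc
      · refine ⟨x + M * u, mem_lay.2 ⟨x, hx, u, by rw [hRx]; exact hu, rfl⟩, y + M * v,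
          mem_lay.2 ⟨y, hy, v, by rw [hRy]; exact hv, rfl⟩, ?_, c, ?_⟩
        · have := Nat.mul_lt_mul_of_pos_left huv hL.1
          omega
        · push_cast
          linear_combination hw + (M : ℤ) * hc

theorem lay_card {M : ℕ} {L P Q : Finset ℕ} (hL : NM M L) {c : ℕ} (hP : P.card = c)
    (hQ : Q.card = c) : (lay M L P Q).card = L.card * c := by
  unfold lay
  rw [Finset.card_biUnion]
  · rw [Finset.sum_const_nat (m := c)]
    intro b hb
    rw [Finset.card_image_of_injective]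
    · split_ifs
      · exact hP
      · exact hQ
    · intro a a' h
      have h2 : M * a = M * a' := by simpa using h
      exact Nat.eq_of_mul_eq_mul_left hL.1 h2
  · intro b hb b' hb' hne
    rw [Function.onFun, Finset.disjoint_left]
    intro v hv hv'
    simp only [Finset.mem_image] at hv hv'
    obtain ⟨a, _, rfl⟩ := hv
    obtain ⟨a', _, h'⟩ := hv'
    apply hne
    apply hL.inj hb hb'
    refine ⟨(a' : ℤ) - a, ?_⟩
    have : ((b' : ℤ) + M * a') = b + M * a := by exact_mod_cast h'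
    linear_combination -this

/-- monotone relabelling -/
theorem image_nm {N : ℕ} {A : Finset ℕ} (h : NM N A) (f : ℕ → ℕ)
    (hf : ∀ x ∈ A, (N : ℤ) ∣ (f x : ℤ) - x) (hm : ∀ x ∈ A, ∀ y ∈ A, x < y → f x < f y) :
    NM N (A.image f) := by
  refine ⟨h.1, ?_, ?_⟩
  · intro x hx y hy z hz hd
    rw [Finset.mem_image] at hx hy hz
    obtain ⟨x', hx', rfl⟩ := hx
    obtain ⟨y', hy', rfl⟩ := hy
    obtain ⟨z', hz', rfl⟩ := hz
    obtain ⟨e1, e2⟩ := h.2.1 x' hx' y' hy' z' hz' (by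
      have h1 := hf x' hx'
      have h2 := hf y' hy'
      have h3 := hf z' hz'
      have h4 : ((x' : ℤ) + z' - 2 * y') = ((f x' : ℤ) + f z' - 2 * f y') - ((f x' : ℤ) - x')
        - ((f z' : ℤ) - z') + 2 * ((f y' : ℤ) - y') := by ring
      rw [h4]
      exact dvd_add (dvd_sub (dvd_sub hd h1) h3) (Dvd.dvd.mul_left h2 2))
    rw [e1, e2]; exact ⟨rfl, rfl⟩
  · intro r
    rcases h.2.2 r with ⟨a, ha, hd⟩ | ⟨x, hx, y, hy, hxy, hd⟩
    · left
      refine ⟨f a, Finset.mem_image_of_mem f ha, ?_⟩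
      have h4 : r - (f a : ℤ) = (r - a) - ((f a : ℤ) - a) := by ring
      rw [h4]; exact dvd_sub hd (hf a ha)
    · right
      refine ⟨f x, Finset.mem_image_of_mem f hx, f y, Finset.mem_image_of_mem f hy,
        hm x hx y hy hxy, ?_⟩
      have h4 : r + (f x : ℤ) - 2 * f y = (r + x - 2 * y) + ((f x : ℤ) - x)
        - 2 * ((f y : ℤ) - y) := by ring
      rw [h4]
      exact dvd_sub (dvd_add hd (hf x hx)) (Dvd.dvd.mul_left (hf y hy) 2)

/-- near-modular set with `2^k` elements, least element `0` and greatest element `q` -/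
def AT (N k q : ℕ) (A : Finset ℕ) : Prop :=
  NM N A ∧ 0 ∈ A ∧ A.card = 2 ^ k ∧ q ∈ A ∧ ∀ x ∈ A, x ≤ q

theorem AT.shift {N k q : ℕ} {A : Finset ℕ} (h : AT N k q A) (hq : q ≠ 0) (c : ℕ) :
    ∃ A', AT N k (q + c * N) A' := by
  obtain ⟨hn, h0, hc, hqA, hm⟩ := h
  set f : ℕ → ℕ := fun x => if x = q then q + c * N else x with hf
  have hmono : ∀ x ∈ A, ∀ y ∈ A, x < y → f x < f y := by
    intro x hx y hy hxy
    have hxq : x ≠ q := by have := hm y hy; omega
    simp only [hf, hxq, if_false]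
    split_ifs with h1
    · subst h1; omega
    · exact hxy
  refine ⟨A.image f, image_nm hn f ?_ hmono, ?_, ?_, ?_, ?_⟩
  · intro x hx
    simp only [hf]
    split_ifs with h1
    · subst h1; push_cast; refine ⟨c, by ring⟩
    · simp
  · rw [Finset.mem_image]; exact ⟨0, h0, by simp [hf, hq.symm]⟩
  · rw [Finset.card_image_of_injOn, hc]
    intro x hx y hy hxy
    rcases lt_trichotomy x y with h1 | h1 | h1
    · have := hmono x hx y hy h1; omega
    · exact h1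
    · have := hmono y hy x hx h1; omega
  · rw [Finset.mem_image]; exact ⟨q, hqA, by simp [hf]⟩
  · intro x hx
    rw [Finset.mem_image] at hx
    obtain ⟨x', hx', rfl⟩ := hx
    simp only [hf]
    split_ifs
    · exact le_rfl
    · have := hm x' hx'; exact this.trans (Nat.le_add_right _ _)

theorem AT.prod {N k q N' k' q' : ℕ} {A A' : Finset ℕ} (h : AT N k q A) (h' : AT N' k' q' A') :
    AT (N * N') (k + k') (q + N * q') (lay N A A' A') := by
  obtain ⟨hn, h0, hc, hqA, hm⟩ := h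
  obtain ⟨hn', h0', hc', hqA', hm'⟩ := h'
  refine ⟨lay_nm hn hn' hn' ?_, ?_, ?_, ?_, ?_⟩
  · intro r
    rcases hn.2.2 r with h | ⟨x, hx, y, hy, hxy, hd⟩
    · exact Or.inl h
    · exact Or.inr ⟨x, hx, y, hy, hxy, Or.inr rfl, hd⟩
  · rw [mem_lay]; exact ⟨0, h0, 0, by simpa using h0', by simp⟩
  · rw [lay_card hn hc' hc', hc, pow_add]
  · rw [mem_lay]; exact ⟨q, hqA, q', by simpa using hqA', rfl⟩
  · intro x hx
    rw [mem_lay] at hx
    obtain ⟨b, hb, a, ha, rfl⟩ := hx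
    have ha' : a ∈ A' := by simpa using ha
    exact Nat.add_le_add (hm b hb) (Nat.mul_le_mul_left N (hm' a ha'))

/-- attained values -/
def At (lam : ℕ) : Prop := ∃ N k q A, AT N k q A ∧ 2 * q + 1 = lam + N

/-- attained, with a companion set for the same modulus and size with smaller maximum -/
def Gd (lam : ℕ) : Prop := ∃ N k q P Q, AT N k q P ∧ 2 * q + 1 = lam + N ∧
  NM N Q ∧ Q.card = 2 ^ k ∧ ∀ y ∈ Q, y < q

theorem Gd.at {lam : ℕ} (h : Gd lam) : At lam := by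
  obtain ⟨N, k, q, P, Q, h1, h2, _⟩ := h
  exact ⟨N, k, q, P, h1, h2⟩

/-- twisted product with a redundant near-modular set -/
theorem Gd.twist {M l : ℕ} {L : Finset ℕ} (hL : NM M L) (hc : L.card = 2 ^ l) (h0 : 0 ∈ L)
    (hlt : ∀ b ∈ L, b < M)
    (hred : ∀ r : ℤ, (∃ a ∈ L, (M : ℤ) ∣ r - a) ∨
      (∃ x ∈ L, ∃ y ∈ L, x < y ∧ x ≠ 0 ∧ (M : ℤ) ∣ r + x - 2 * y))
    {m : ℕ} (h : Gd (m + 1)) : Gd (M * m + 1) := by
  obtain ⟨N, k, q, P, Q, ⟨hn, hp0, hpc, hqA, hm⟩, h2, hQ, hQc, hQm⟩ := h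
  have key : ∀ b ∈ L, ∀ a ∈ Q, b + M * a < M * q := by
    intro b hb a ha
    have h1 := hlt b hb
    have h2 : a + 1 ≤ q := hQm a ha
    have h3 : M * (a + 1) ≤ M * q := Nat.mul_le_mul_left M h2
    have h4 : M * (a + 1) = M * a + M := by ring
    omega
  refine ⟨M * N, l + k, M * q, lay M L P Q, lay M L Q Q, ⟨lay_nm hL hn hQ ?_, ?_, ?_, ?_, ?_⟩,
    ?_, lay_nm hL hQ hQ ?_, ?_, ?_⟩
  · intro r
    rcases hred r with h | ⟨x, hx, y, hy, hxy, hx0, hd⟩
    · exact Or.inl h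
    · exact Or.inr ⟨x, hx, y, hy, hxy, Or.inl hx0, hd⟩
  · rw [mem_lay]; exact ⟨0, h0, 0, by simpa using hp0, by simp⟩
  · rw [lay_card hL hpc hQc, hc, pow_add]
  · rw [mem_lay]; exact ⟨0, h0, q, by simpa using hqA, by simp⟩
  · intro x hx
    rw [mem_lay] at hx
    obtain ⟨b, hb, a, ha, rfl⟩ := hx
    by_cases hb0 : b = 0
    · subst hb0
      have ha' : a ∈ P := by simpa using ha
      have := Nat.mul_le_mul_left M (hm a ha')
      omega
    · have ha' : a ∈ Q := by simpa [hb0] using ha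
      exact (key b hb a ha').le
  · have : M * (2 * q + 1) = M * (m + 1 + N) := by rw [h2]
    have e1 : M * (2 * q + 1) = 2 * (M * q) + M := by ring
    have e2 : M * (m + 1 + N) = M * m + M * N + M := by ring
    omega
  · intro r
    rcases hred r with h | ⟨x, hx, y, hy, hxy, hx0, hd⟩
    · exact Or.inl h
    · exact Or.inr ⟨x, hx, y, hy, hxy, Or.inl hx0, hd⟩
  · rw [lay_card hL hQc hQc, hc, pow_add]
  · intro x hx
    rw [mem_lay] at hx
    obtain ⟨b, hb, a, ha, rfl⟩ := hx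
    have ha' : a ∈ Q := by simpa using ha
    exact key b hb a ha'

end Pool.Agent.K3h20.Stan
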