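import Mathlib
import Pool.Agent.K3h20.Stan

/-!
# Data: explicit near-modular sets, checked by the kernel
-/

set_option autoImplicit false

namespace Pool.Agent.K3h20.Stan

/-- bit mask of a list -/
def bm (l : List ℕ) : ℕ := l.foldr (fun a m => m ||| 1 <<< a) 0

theorem testBit_bm (l : List ℕ) (r : ℕ) : (bm l).testBit r = true ↔ r ∈ l := by
  induction l with
  | nil => simp [bm]
  | cons a l ih =>
    have h : bm (a :: l) = bm l ||| 1 <<< a := rfl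
    rw [h, Nat.testBit_or, Bool.or_eq_true, ih, Nat.one_shiftLeft, Nat.testBit_two_pow,
      List.mem_cons]
    simp only [decide_eq_true_eq]
    constructor
    · rintro (h | h)
      · exact Or.inr h
      · exact Or.inl h.symm
    · rintro (h | h)
      · exact Or.inr h.symm
      · exact Or.inl h

/-- residues covered by `x < y` with `x` in `l1` -/
def cv (N : ℕ) (l1 l : List ℕ) : List ℕ :=
  l1.flatMap (fun x => (l.filter (fun y => Nat.blt x y)).map (fun y => (2 * y + (N - 1) * x) % N))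

/-- the check for near-modularity; covers use only first elements in `l1` -/
def chk (N : ℕ) (l1 l : List ℕ) : Bool :=
  Nat.blt 0 N && decide (l.map (· % N)).Nodup &&
  (let R := bm (l.map (· % N))
   let C := bm (cv N l1 l)
   (l.all fun x => l.all fun y => Nat.beq x y || !(R.testBit ((2 * y + (N - 1) * x) % N))) &&
   ((List.range N).all fun r => R.testBit r || C.testBit r))

theorem res_dvd {N x y r : ℕ} (hN : 0 < N) (h : (2 * y + (N - 1) * x) % N = r % N) :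
    (N : ℤ) ∣ (r : ℤ) + x - 2 * y := by
  have h1 : (2 * y + (N - 1) * x) ≡ r [MOD N] := h
  have h2 := (Nat.modEq_iff_dvd.1 h1)
  push_cast [Nat.cast_sub hN] at h2
  have h3 : (r : ℤ) + x - 2 * y = ((r : ℤ) - (2 * y + (N - 1) * x)) + N * x := by ring
  rw [h3]
  exact dvd_add h2 (dvd_mul_right _ _)

theorem dvd_res {N x y z : ℕ} (hN : 0 < N) (h : (N : ℤ) ∣ (x : ℤ) + z - 2 * y) :
    (2 * y + (N - 1) * x) % N = z % N := by
  have : (2 * y + (N - 1) * x) ≡ z [MOD N] := by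
    rw [Nat.modEq_iff_dvd]
    push_cast [Nat.cast_sub hN]
    have h3 : (z : ℤ) - (2 * y + (N - 1) * x) = ((x : ℤ) + z - 2 * y) - N * x := by ring
    rw [h3]
    exact dvd_sub h (dvd_mul_right _ _)
  exact this

theorem chk_cov {N : ℕ} {l1 l : List ℕ} (h : chk N l1 l = true) (hsub : ∀ x ∈ l1, x ∈ l) :
    ∀ r : ℤ, (∃ a ∈ l.toFinset, (N : ℤ) ∣ r - a) ∨
      (∃ x ∈ l.toFinset, ∃ y ∈ l.toFinset, x < y ∧ x ∈ l1 ∧ (N : ℤ) ∣ r + x - 2 * y) := by
  simp only [chk, Bool.and_eq_true] at h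
  obtain ⟨⟨hN, hnd⟩, hfree, hcov⟩ := h
  have hN' : 0 < N := by simpa using hN
  have hNz : (0 : ℤ) < N := by exact_mod_cast hN'
  intro r
  obtain ⟨r', hr', hrr⟩ : ∃ r' : ℕ, r' < N ∧ (N : ℤ) ∣ r - r' := by
    refine ⟨(r % N).toNat, ?_, ?_⟩
    · have h1 := Int.emod_nonneg r hNz.ne'
      have h2 := Int.emod_lt_of_pos r hNz
      omega
    · rw [Int.toNat_of_nonneg (Int.emod_nonneg r hNz.ne')]
      exact Int.dvd_self_sub_emod
  have h3 := List.all_eq_true.1 hcov r' (List.mem_range.2 hr')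
  rw [Bool.or_eq_true, testBit_bm, testBit_bm] at h3
  rcases h3 with h3 | h3
  · left
    rw [List.mem_map] at h3
    obtain ⟨a, ha, hae⟩ := h3
    refine ⟨a, List.mem_toFinset.2 ha, ?_⟩
    have h4 : (N : ℤ) ∣ (r' : ℤ) - a := by
      have : a ≡ r' [MOD N] := by
        show a % N = r' % N
        rw [hae, Nat.mod_eq_of_lt hr']
      exact Nat.modEq_iff_dvd.1 this
    have h5 : r - (a : ℤ) = (r - r') + (r' - a) := by ring
    rw [h5]; exact dvd_add hrr h4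
  · right
    simp only [cv, List.mem_flatMap, List.mem_map, List.mem_filter] at h3
    obtain ⟨x, hx, y, ⟨hy, hxy⟩, he⟩ := h3
    refine ⟨x, List.mem_toFinset.2 (hsub x hx), y, List.mem_toFinset.2 hy, by simpa using hxy,
      hx, ?_⟩
    have h4 := res_dvd (r := r') hN' (by rw [he, Nat.mod_eq_of_lt hr'])
    have h5 : r + (x : ℤ) - 2 * y = (r - r') + (r' + x - 2 * y) := by ring
    rw [h5]; exact dvd_add hrr h4

theorem chk_nm {N : ℕ} {l1 l : List ℕ} (h : chk N l1 l = true) (hsub : ∀ x ∈ l1, x ∈ l) :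
    NM N l.toFinset := by
  have hc := chk_cov h hsub
  simp only [chk, Bool.and_eq_true] at h
  obtain ⟨⟨hN, hnd⟩, hfree, hcov⟩ := h
  have hN' : 0 < N := by simpa using hN
  have hnd' : (l.map (· % N)).Nodup := by simpa using hnd
  refine ⟨hN', ?_, ?_⟩
  · intro x hx y hy z hz hd
    rw [List.mem_toFinset] at hx hy hz
    have h1 := dvd_res hN' hd
    have h2 := List.all_eq_true.1 (List.all_eq_true.1 hfree x hx) y hy
    have hxy : x = y := by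
      by_contra hne
      have h3 : Nat.beq x y = false := by
        cases hb : Nat.beq x y
        · rfl
        · exact absurd (Nat.eq_of_beq_eq_true hb) hne
      rw [h3, Bool.false_or, Bool.not_eq_true', ← Bool.not_eq_true, testBit_bm] at h2
      apply h2
      rw [h1]
      exact List.mem_map.2 ⟨z, hz, rfl⟩
    subst hxy
    refine ⟨rfl, ?_⟩
    have h4 : z % N = x % N := by
      rw [← h1]
      have h5 : 2 * x + (N - 1) * x = x + N * x := by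
        obtain ⟨M, rfl⟩ : ∃ M, N = M + 1 := ⟨N - 1, by omega⟩
        simp only [Nat.add_sub_cancel]; ring
      rw [h5, Nat.add_mul_mod_self_left]
    exact List.inj_on_of_nodup_map hnd' hz hx h4
  · intro r
    rcases hc r with h | ⟨x, hx, y, hy, hxy, _, hd⟩
    · exact Or.inl h
    · exact Or.inr ⟨x, hx, y, hy, hxy, hd⟩

/-- full check -/
def chkAT (N k q : ℕ) (l : List ℕ) : Bool :=
  chk N l l && Nat.beq l.length (2 ^ k) && l.contains 0 && l.contains q &&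
    l.all fun x => Nat.ble x q

theorem at_of {N k q : ℕ} {l : List ℕ} (h : chkAT N k q l = true) : AT N k q l.toFinset := by
  simp only [chkAT, Bool.and_eq_true] at h
  obtain ⟨⟨⟨⟨h1, h2⟩, h3⟩, h4⟩, h5⟩ := h
  have hnd : l.Nodup := by
    have h1' := h1
    simp only [chk, Bool.and_eq_true] at h1'
    have hnd' : (l.map (· % N)).Nodup := by simpa using h1'.1.2
    exact hnd'.of_map
  refine ⟨chk_nm h1 (fun _ h => h), ?_, ?_, ?_, ?_⟩
  · rw [List.mem_toFinset]; simpa using h3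
  · rw [List.toFinset_card_of_nodup hnd]; exact Nat.eq_of_beq_eq_true h2
  · rw [List.mem_toFinset]; simpa using h4
  · intro x hx
    rw [List.mem_toFinset] at hx
    have := List.all_eq_true.1 h5 x hx
    exact Nat.le_of_ble_eq_true this

/-- table of sets modulo 85 -/
def T85 : List (ℕ × List ℕ) := [
  (86, [0, 7, 15, 22, 31, 38, 52, 53, 59, 60, 64, 71, 74, 79, 81, 86]),
  (87, [0, 12, 16, 23, 28, 35, 36, 39, 48, 51, 52, 59, 64, 71, 75, 87]),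
  (88, [0, 1, 4, 29, 30, 32, 33, 47, 48, 50, 51, 76, 77, 79, 80, 88]),
  (89, [0, 14, 18, 26, 30, 37, 41, 49, 50, 53, 54, 62, 66, 73, 77, 89]),
  (90, [0, 2, 3, 29, 31, 32, 34, 47, 49, 50, 52, 76, 78, 79, 81, 90]),
  (91, [0, 8, 13, 21, 24, 32, 37, 45, 46, 54, 59, 67, 70, 78, 83, 91]),
  (92, [0, 20, 27, 31, 38, 41, 48, 52, 53, 59, 60, 64, 71, 74, 81, 92]),
  (93, [0, 2, 18, 20, 24, 26, 47, 49, 53, 55, 56, 58, 62, 64, 91, 93]),
  (94, [0, 1, 3, 19, 21, 48, 50, 54, 56, 57, 59, 63, 65, 83, 92, 94]),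
  (95, [0, 1, 13, 15, 38, 39, 41, 42, 51, 53, 56, 57, 79, 80, 94, 95]),
  (96, [0, 4, 12, 16, 27, 35, 39, 47, 49, 53, 61, 65, 76, 84, 88, 96]),
  (97, [0, 1, 3, 4, 9, 13, 58, 59, 61, 62, 67, 68, 70, 71, 95, 97]),
  (98, [0, 3, 4, 7, 12, 16, 27, 30, 31, 34, 36, 39, 40, 43, 94, 98]),
  (99, [0, 2, 3, 9, 11, 12, 27, 29, 30, 32, 36, 38, 39, 41, 90, 99]),
  (100, [0, 9, 27, 29, 32, 33, 36, 38, 41, 42, 87, 90, 91, 96, 99, 100]),
  (101, [0, 5, 17, 25, 36, 40, 48, 52, 54, 62, 66, 74, 89, 97, 98, 101]),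
  (102, [0, 7, 21, 26, 28, 33, 47, 48, 54, 55, 69, 74, 76, 81, 95, 102]),
  (103, [0, 7, 11, 32, 39, 43, 50, 52, 59, 63, 70, 84, 91, 95, 102, 103]),
  (104, [0, 14, 16, 26, 30, 37, 40, 42, 53, 56, 62, 63, 78, 79, 88, 104]),
  (105, [0, 2, 18, 24, 26, 47, 49, 53, 55, 56, 58, 62, 64, 91, 93, 105]),
  (106, [0, 13, 23, 24, 36, 37, 39, 47, 52, 60, 63, 69, 76, 82, 93, 106]),
  (107, [0, 1, 3, 4, 27, 28, 30, 31, 76, 77, 79, 80, 103, 104, 106, 107]),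
  (108, [0, 1, 3, 4, 19, 20, 57, 58, 60, 61, 76, 77, 79, 80, 107, 108]),
  (109, [0, 4, 6, 10, 22, 28, 31, 35, 37, 41, 49, 53, 55, 59, 103, 109]),
  (110, [0, 2, 29, 31, 38, 40, 41, 43, 67, 69, 70, 72, 79, 81, 108, 110]),
  (111, [0, 6, 8, 14, 24, 32, 54, 60, 62, 68, 72, 78, 80, 86, 103, 111]),
  (112, [0, 11, 23, 29, 37, 49, 52, 53, 60, 65, 72, 73, 76, 88, 89, 112]),
  (113, [0, 16, 26, 38, 42, 49, 54, 61, 62, 65, 74, 77, 78, 90, 97, 113]),
  (114, [0, 2, 6, 9, 23, 27, 32, 33, 36, 38, 42, 81, 90, 96, 100, 114]),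
  (115, [0, 1, 3, 4, 27, 28, 31, 36, 37, 39, 40, 94, 95, 97, 98, 115]),
  (116, [0, 1, 3, 27, 28, 30, 76, 77, 79, 80, 89, 103, 104, 106, 107, 116]),
  (117, [0, 1, 3, 4, 29, 30, 33, 38, 39, 41, 42, 67, 68, 70, 71, 117]),
  (118, [0, 1, 3, 4, 9, 10, 12, 13, 29, 30, 32, 38, 39, 41, 42, 118]),
  (119, [0, 2, 3, 5, 9, 11, 12, 14, 29, 31, 32, 38, 40, 41, 43, 119]),
  (120, [0, 4, 29, 33, 42, 44, 47, 48, 71, 73, 76, 77, 86, 91, 115, 120]),
  (121, [0, 3, 8, 10, 21, 40, 47, 67, 74, 78, 99, 100, 104, 111, 114, 121]),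
  (122, [0, 11, 23, 27, 29, 49, 52, 53, 60, 65, 72, 73, 76, 88, 89, 122]),
  (123, [0, 4, 12, 16, 26, 30, 42, 49, 53, 61, 62, 65, 66, 74, 78, 123]),
  (124, [0, 3, 4, 7, 16, 27, 30, 36, 40, 43, 94, 97, 98, 116, 119, 124]),
  (125, [0, 1, 4, 9, 10, 12, 37, 39, 42, 88, 98, 113, 115, 116, 118, 125]),
  (126, [0, 1, 3, 4, 9, 10, 12, 13, 29, 32, 38, 39, 42, 115, 118, 126]),
  (127, [0, 9, 25, 26, 35, 46, 48, 51, 62, 64, 72, 74, 88, 90, 101, 127]),
  (128, [0, 2, 3, 5, 9, 11, 12, 14, 29, 38, 41, 116, 117, 119, 125, 128]),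
  (129, [0, 6, 14, 16, 33, 43, 47, 49, 57, 58, 76, 77, 87, 90, 120, 129]),
  (130, [0, 6, 7, 63, 64, 66, 67, 72, 73, 86, 94, 95, 113, 114, 129, 130]),
  (131, [0, 3, 16, 27, 35, 40, 48, 49, 62, 72, 73, 81, 86, 94, 118, 131]),
  (132, [0, 2, 28, 30, 35, 43, 44, 49, 71, 72, 76, 77, 90, 91, 118, 132]),
  (133, [0, 12, 21, 44, 56, 62, 70, 74, 82, 93, 98, 105, 110, 118, 121, 133]),
  (134, [0, 53, 61, 71, 77, 79, 84, 92, 95, 102, 103, 108, 110, 116, 126, 134]),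
  (135, [0, 19, 28, 41, 47, 64, 69, 83, 86, 92, 105, 107, 111, 114, 133, 135]),
  (136, [0, 1, 3, 4, 19, 20, 22, 28, 47, 108, 114, 116, 117, 133, 135, 136]),
  (137, [0, 2, 38, 40, 41, 43, 56, 58, 79, 81, 94, 96, 97, 99, 135, 137]),
  (138, [0, 4, 46, 50, 58, 62, 73, 77, 95, 99, 107, 111, 122, 126, 134, 138]),
  (139, [0, 14, 21, 25, 32, 33, 35, 47, 58, 65, 68, 79, 96, 129, 131, 139]),
  (140, [0, 12, 15, 22, 34, 40, 62, 64, 78, 86, 99, 104, 118, 121, 126, 140]),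
  (141, [0, 7, 23, 24, 44, 60, 69, 72, 79, 93, 95, 106, 116, 122, 132, 141]),
  (57, [0, 2, 6, 8, 18, 20, 24, 26, 31, 33, 37, 39, 49, 51, 55, 57]),
  (143, [0, 1, 3, 4, 19, 20, 22, 47, 60, 61, 108, 133, 135, 136, 142, 143]),
  (59, [0, 4, 6, 10, 18, 22, 24, 28, 31, 35, 37, 41, 49, 53, 55, 59]),
  (145, [0, 3, 18, 19, 21, 22, 47, 48, 50, 51, 56, 57, 59, 86, 89, 145]),
  (61, [0, 4, 10, 12, 18, 22, 28, 30, 31, 35, 41, 43, 49, 53, 59, 61]),
  (147, [0, 21, 22, 35, 40, 43, 54, 57, 76, 78, 97, 100, 104, 119, 126, 147]),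
  (63, [0, 6, 8, 14, 18, 24, 26, 31, 32, 37, 39, 45, 49, 55, 57, 63]),
  (149, [0, 22, 25, 48, 59, 62, 75, 78, 84, 100, 101, 121, 123, 126, 137, 149]),
  (65, [0, 4, 12, 16, 18, 22, 30, 31, 34, 35, 43, 47, 49, 53, 61, 65]),
  (151, [0, 9, 31, 42, 45, 52, 64, 74, 78, 88, 99, 107, 108, 121, 141, 151]),
  (152, [0, 1, 3, 4, 9, 10, 12, 13, 56, 57, 59, 60, 69, 70, 151, 152]),
  (153, [0, 1, 3, 4, 9, 10, 12, 13, 58, 59, 61, 62, 70, 71, 152, 153]),
  (69, [0, 8, 12, 18, 20, 26, 30, 31, 38, 39, 43, 49, 51, 57, 61, 69]),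
  (70, [0, 6, 7, 11, 17, 18, 20, 31, 32, 39, 43, 50, 52, 59, 63, 70]),
  (71, [0, 1, 3, 4, 9, 10, 12, 13, 58, 59, 61, 62, 67, 68, 70, 71]),
  (72, [0, 2, 3, 5, 29, 31, 32, 34, 38, 40, 41, 43, 67, 69, 70, 72]),
  (73, [0, 2, 5, 6, 9, 11, 14, 15, 58, 60, 63, 64, 67, 69, 72, 73]),
  (74, [0, 3, 4, 7, 9, 12, 13, 16, 58, 61, 62, 65, 67, 70, 71, 74]),
  (75, [0, 2, 29, 31, 35, 37, 38, 40, 44, 46, 64, 66, 67, 69, 73, 75]),
  (76, [0, 8, 13, 21, 24, 31, 32, 37, 39, 44, 45, 52, 55, 63, 68, 76]),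
  (77, [0, 11, 13, 14, 24, 25, 27, 38, 46, 53, 57, 59, 64, 66, 70, 77]),
  (78, [0, 1, 11, 12, 14, 15, 25, 26, 33, 44, 47, 53, 58, 64, 67, 78]),
  (79, [0, 11, 14, 21, 25, 32, 33, 35, 44, 46, 47, 54, 58, 65, 68, 79]),
  (80, [0, 1, 3, 4, 29, 30, 32, 33, 47, 48, 50, 51, 76, 77, 79, 80]),
  (81, [0, 2, 3, 5, 29, 31, 32, 34, 47, 49, 50, 52, 76, 78, 79, 81]),
  (82, [0, 8, 13, 21, 30, 38, 43, 51, 54, 61, 62, 67, 69, 74, 75, 82]),
  (83, [0, 6, 7, 19, 20, 25, 26, 28, 39, 47, 48, 63, 64, 67, 82, 83]),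
  (84, [0, 8, 13, 21, 24, 32, 37, 39, 45, 47, 52, 60, 63, 71, 76, 84])]

theorem T85_ok : ((List.range 84).all fun i => match T85[i]? with
    | some p => Nat.beq (p.1 % 85) (i + 1) && Nat.ble p.1 153 && chkAT 85 4 p.1 p.2
    | none => false) = true := by decide +kernel

/-- the redundant set modulo 85 -/
def L85 : List ℕ := [0, 8, 14, 22, 26, 34, 37, 45, 49, 50, 57, 58, 62, 70, 73, 81]

/-- its nonzero elements -/
def L85' : List ℕ := [8, 14, 22, 26, 34, 37, 45, 49, 50, 57, 58, 62, 70, 73, 81]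

theorem L85_ok : chk 85 L85' L85 = true := by decide +kernel

/-- table of small odd values -/
def TD : List (ℕ × ℕ × ℕ × List ℕ) := [
  (7, 30, 18, [0, 1, 7, 8, 10, 11, 17, 18]),
  (13, 30, 21, [0, 1, 3, 4, 10, 13, 14, 21]),
  (17, 28, 22, [0, 4, 5, 9, 15, 17, 20, 22]),
  (19, 28, 23, [0, 1, 3, 4, 19, 20, 22, 23]),
  (25, 32, 28, [0, 2, 3, 5, 23, 25, 26, 28]),
  (31, 28, 29, [0, 5, 11, 13, 16, 18, 24, 29]),
  (37, 28, 32, [0, 1, 3, 19, 20, 22, 23, 32]),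
  (43, 28, 35, [0, 5, 13, 17, 18, 22, 30, 35]),
  (49, 28, 38, [0, 1, 9, 12, 13, 31, 32, 38]),
  (55, 28, 41, [0, 1, 3, 9, 10, 12, 32, 41]),
  (61, 28, 44, [0, 5, 11, 13, 18, 24, 29, 44]),
  (73, 28, 50, [0, 4, 5, 9, 15, 17, 20, 50]),
  (91, 28, 59, [0, 1, 19, 20, 22, 23, 32, 59]),
  (109, 28, 68, [0, 3, 29, 32, 37, 38, 41, 68]),
  (127, 28, 77, [0, 11, 15, 23, 26, 34, 38, 77]),
  (145, 28, 86, [0, 8, 9, 12, 27, 31, 39, 86]),
  (181, 28, 104, [0, 3, 4, 19, 22, 23, 29, 104]),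
  (217, 28, 122, [0, 1, 9, 12, 13, 31, 32, 122]),
  (271, 28, 149, [0, 5, 15, 17, 20, 22, 32, 149]),
  (379, 28, 203, [0, 5, 13, 17, 18, 22, 30, 203]),
  (433, 28, 230, [0, 1, 10, 25, 26, 35, 37, 230]),
  (541, 28, 284, [0, 1, 3, 19, 20, 22, 23, 284])]

theorem TD_ok : (TD.all fun p => Nat.beq (2 * p.2.2.1 + 1) (p.1 + p.2.1) &&
    chkAT p.2.1 3 p.2.2.1 p.2.2.2) = true := by decide +kernel

/-- table of sets modulo 28 -/
def TG : List (ℕ × List ℕ) := [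
  (95, [0, 5, 13, 16, 18, 24, 29, 95]),
  (176, [0, 11, 23, 24, 34, 41, 47, 176]),
  (257, [0, 11, 15, 16, 20, 26, 31, 257]),
  (338, [0, 8, 9, 12, 27, 31, 39, 338]),
  (419, [0, 15, 17, 23, 32, 38, 40, 419])]

theorem TG_ok : (TG.all fun p => chkAT 28 3 p.1 p.2) = true := by decide +kernel

theorem at28 : chkAT 28 3 22 [0, 4, 5, 9, 15, 17, 20, 22] = true := by decide +kernel
theorem at10 : chkAT 10 2 8 [0, 1, 7, 8] = true := by decide +kernel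
theorem at85 : chkAT 85 4 57 [0, 2, 6, 8, 18, 20, 24, 26, 31, 33, 37, 39, 49, 51, 55, 57] = true := by decide +kernel
theorem at3a : chkAT 3 1 1 [0, 1] = true := by decide +kernel
theorem at3b : chkAT 3 1 2 [0, 2] = true := by decide +kernel
theorem at9a : chkAT 9 2 6 [0, 2, 5, 6] = true := by decide +kernel
theorem at9b : chkAT 9 2 12 [0, 1, 4, 12] = true := by decide +kernel
theorem at27a : chkAT 27 3 18 [0, 1, 4, 6, 10, 13, 15, 18] = true := by decide +kernel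
theorem at27b : chkAT 27 3 36 [0, 1, 3, 4, 10, 13, 21, 36] = true := by decide +kernel
theorem at81a : chkAT 81 4 54 [0, 1, 3, 7, 10, 12, 16, 18, 28, 30, 34, 37, 39, 43, 45, 54] = true := by
  decide +kernel
theorem at81b : chkAT 81 4 108 [0, 1, 6, 7, 9, 10, 15, 16, 28, 33, 34, 36, 37, 42, 43, 108] = true := by
  decide +kernel

end Pool.Agent.K3h20.Stan
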