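import Mathlib
import Pool.Agent.K3h20.Stan
import Pool.Agent.K3h20.StanData

/-!
# All values are attained
-/

set_option autoImplicit false

namespace Pool.Agent.K3h20.Stan

theorem set85 (q : ℕ) (h0 : q % 85 ≠ 0) (hq : 153 ≤ q) : ∃ A, AT 85 4 q A := by
  have hT := List.all_eq_true.1 T85_ok (q % 85 - 1) (List.mem_range.2 (by omega))
  rcases hg : T85[q % 85 - 1]? with _ | p
  · rw [hg] at hT; simp at hT
  · rw [hg] at hT
    simp only [Bool.and_eq_true] at hT
    obtain ⟨⟨h1, h2⟩, h3⟩ := hT
    have h1' := Nat.eq_of_beq_eq_true h1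
    have h2' := Nat.le_of_ble_eq_true h2
    have hA := at_of h3
    have hp0 : p.1 ≠ 0 := by intro h; rw [h] at h1'; omega
    obtain ⟨A', hA'⟩ := hA.shift hp0 ((q - p.1) / 85)
    have e : p.1 + (q - p.1) / 85 * 85 = q := by omega
    rw [e] at hA'
    exact ⟨A', hA'⟩

theorem set85_83 : ∃ A, AT 85 4 83 A := by
  have hT := List.all_eq_true.1 T85_ok 82 (List.mem_range.2 (by omega))
  have hg : T85[82]? = some (83, [0, 6, 7, 19, 20, 25, 26, 28, 39, 47, 48, 63, 64, 67, 82, 83]) := rfl
  rw [hg] at hT
  simp only [Bool.and_eq_true] at hT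
  exact ⟨_, at_of hT.2⟩

theorem gd_direct (lam q : ℕ) (l : List ℕ) (h : chkAT 28 3 q l = true) (he : 2 * q + 1 = lam + 28)
    (hq : 22 < q) : Gd lam := by
  have hA := at_of h
  have hB := at_of at28
  exact ⟨28, 3, q, _, _, hA, he, hB.1, hB.2.2.1, fun y hy => (hB.2.2.2.2 y hy).trans_lt hq⟩

theorem gd_all : ∀ lam : ℕ, lam % 81 = 1 → 82 ≤ lam → Gd lam := by
  intro lam
  induction lam using Nat.strong_induction_on with
  | _ lam ih =>
    intro h81 h82
    by_cases h85 : lam % 85 = 1
    · have hm : lam = 85 * (lam / 85) + 1 := by omega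
      have hd : (lam / 85) % 81 = 0 := by omega
      have hpos : 81 ≤ lam / 85 := by omega
      have hG := ih (lam / 85 + 1) (by omega) (by omega) (by omega)
      have hL := chk_nm L85_ok (by decide)
      have hc : (L85.toFinset).card = 2 ^ 4 := by
        rw [List.toFinset_card_of_nodup (by decide)]; rfl
      have hG2 := Gd.twist (M := 85) (l := 4) hL hc (by rw [List.mem_toFinset]; decide)
        (by intro b hb; rw [List.mem_toFinset] at hb; revert b; decide)
        (by
          intro r
          rcases chk_cov L85_ok (by decide) r with h | ⟨x, hx, y, hy, hxy, hx0, hd⟩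
          · exact Or.inl h
          · refine Or.inr ⟨x, hx, y, hy, hxy, ?_, hd⟩
            intro h0; subst h0; revert hx0; decide)
        hG
      rw [hm]; exact hG2
    · have hB := at_of at85
      have h10 := at_of at10
      rcases Nat.even_or_odd' lam with ⟨n, hn | hn⟩
      · -- even
        have hq : ∃ A, AT 85 4 (n + 42) A := by
          rcases Nat.lt_or_ge n 111 with h | h
          · have : n = 41 := by omega
            subst this; exact set85_83
          · exact set85 _ (by omega) (by omega)
        obtain ⟨A, hA⟩ := hq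
        exact ⟨85, 4, n + 42, A, _, hA, by omega, hB.1, hB.2.2.1,
          fun y hy => (hB.2.2.2.2 y hy).trans_lt (by omega)⟩
      · -- odd
        rcases Nat.lt_or_ge lam 973 with h | h
        · have : lam = 163 ∨ lam = 325 ∨ lam = 487 ∨ lam = 649 ∨ lam = 811 := by omega
          rcases this with h | h | h | h | h
          · subst h
            exact gd_direct _ 95 [0, 5, 13, 16, 18, 24, 29, 95] (by decide +kernel) rfl (by omega)
          · subst h
            exact gd_direct _ 176 [0, 11, 23, 24, 34, 41, 47, 176] (by decide +kernel) rfl (by omega)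
          · subst h
            exact gd_direct _ 257 [0, 11, 15, 16, 20, 26, 31, 257] (by decide +kernel) rfl (by omega)
          · subst h
            exact gd_direct _ 338 [0, 8, 9, 12, 27, 31, 39, 338] (by decide +kernel) rfl (by omega)
          · subst h
            exact gd_direct _ 419 [0, 15, 17, 23, 32, 38, 40, 419] (by decide +kernel) rfl (by omega)
        · -- q' = (lam - 595 + 84) / 2 = n - 255
          obtain ⟨A, hA⟩ := set85 (n - 255) (by omega) (by omega)
          have hP := hA.prod h10
          have hQ := hB.prod h10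
          exact ⟨85 * 10, 4 + 2, n - 255 + 85 * 8, _, _, hP, by omega, hQ.1, hQ.2.2.1,
            fun y hy => (hQ.2.2.2.2 y hy).trans_lt (by omega)⟩

theorem fam_even {N k q0 lam : ℕ} {A : Finset ℕ} (h : AT N k q0 A) (hq0 : q0 ≠ 0)
    {t : ℕ} (ht : lam + N = 2 * (q0 + t * N) + 1) : At lam := by
  obtain ⟨A', hA'⟩ := h.shift hq0 t
  exact ⟨N, k, _, A', hA', ht.symm⟩

theorem fam_odd {N k q0 lam : ℕ} {A : Finset ℕ} (h : AT N k q0 A) (hq0 : q0 ≠ 0)
    {t : ℕ} (ht : lam + N = 2 * (q0 + t * N) + 1 + N * 7) : At lam := by
  obtain ⟨A', hA'⟩ := h.shift hq0 t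
  have hP := hA'.prod (at_of at10)
  exact ⟨N * 10, k + 2, _, _, hP, by omega⟩

theorem at_direct {lam N q : ℕ} {l : List ℕ} (hm : (lam, N, q, l) ∈ TD) : At lam := by
  have h := List.all_eq_true.1 TD_ok _ hm
  simp only [Bool.and_eq_true] at h
  exact ⟨N, 3, q, _, at_of h.2, Nat.eq_of_beq_eq_true h.1⟩

theorem at_all (lam : ℕ) (h : lam ≠ 1 ∧ lam ≠ 3 ∧ lam ≠ 5 ∧ lam ≠ 9 ∧ lam ≠ 11 ∧ lam ≠ 15) :
    At lam := by
  by_cases h81 : lam % 81 = 1
  · exact (gd_all lam h81 (by omega)).at
  have hcase : lam % 3 = 0 ∨ lam % 3 = 2 ∨ lam % 9 = 4 ∨ lam % 9 = 7 ∨ lam % 27 = 10 ∨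
      lam % 27 = 19 ∨ lam % 81 = 28 ∨ lam % 81 = 55 := by omega
  rcases Nat.even_or_odd' lam with ⟨n, hn | hn⟩
  · rcases hcase with h | h | h | h | h | h | h | h
    · exact fam_even (at_of at3a) (by omega) (t := lam / 6) (by omega)
    · exact fam_even (at_of at3b) (by omega) (t := lam / 6) (by omega)
    · exact fam_even (at_of at9a) (by omega) (t := lam / 18) (by omega)
    · exact fam_even (at_of at9b) (by omega) (t := lam / 18) (by omega)
    · exact fam_even (at_of at27a) (by omega) (t := lam / 54) (by omega)
    · exact fam_even (at_of at27b) (by omega) (t := lam / 54) (by omega)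
    · exact fam_even (at_of at81a) (by omega) (t := lam / 162) (by omega)
    · exact fam_even (at_of at81b) (by omega) (t := lam / 162) (by omega)
  · rcases hcase with h | h | h | h | h | h | h | h
    · exact fam_odd (at_of at3a) (by omega) (t := (lam - 21) / 6) (by omega)
    · rcases Nat.lt_or_ge lam 23 with hl | hl
      · have : lam = 17 := by omega
        subst this
        exact at_direct (N := 28) (q := 22) (l := [0, 4, 5, 9, 15, 17, 20, 22]) (by decide)
      · exact fam_odd (at_of at3b) (by omega) (t := (lam - 23) / 6) (by omega)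
    · rcases Nat.lt_or_ge lam 67 with hl | hl
      · have : lam = 13 ∨ lam = 31 ∨ lam = 49 := by omega
        rcases this with h | h | h <;> subst h
        · exact at_direct (N := 30) (q := 21) (l := [0, 1, 3, 4, 10, 13, 14, 21]) (by decide)
        · exact at_direct (N := 28) (q := 29) (l := [0, 5, 11, 13, 16, 18, 24, 29]) (by decide)
        · exact at_direct (N := 28) (q := 38) (l := [0, 1, 9, 12, 13, 31, 32, 38]) (by decide)
      · exact fam_odd (at_of at9a) (by omega) (t := (lam - 67) / 18) (by omega)
    · rcases Nat.lt_or_ge lam 79 with hl | hl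
      · have : lam = 7 ∨ lam = 25 ∨ lam = 43 ∨ lam = 61 := by omega
        rcases this with h | h | h | h <;> subst h
        · exact at_direct (N := 30) (q := 18) (l := [0, 1, 7, 8, 10, 11, 17, 18]) (by decide)
        · exact at_direct (N := 32) (q := 28) (l := [0, 2, 3, 5, 23, 25, 26, 28]) (by decide)
        · exact at_direct (N := 28) (q := 35) (l := [0, 5, 13, 17, 18, 22, 30, 35]) (by decide)
        · exact at_direct (N := 28) (q := 44) (l := [0, 5, 11, 13, 18, 24, 29, 44]) (by decide)
      · exact fam_odd (at_of at9b) (by omega) (t := (lam - 79) / 18) (by omega)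
    · rcases Nat.lt_or_ge lam 199 with hl | hl
      · have : lam = 37 ∨ lam = 91 ∨ lam = 145 := by omega
        rcases this with h | h | h <;> subst h
        · exact at_direct (N := 28) (q := 32) (l := [0, 1, 3, 19, 20, 22, 23, 32]) (by decide)
        · exact at_direct (N := 28) (q := 59) (l := [0, 1, 19, 20, 22, 23, 32, 59]) (by decide)
        · exact at_direct (N := 28) (q := 86) (l := [0, 8, 9, 12, 27, 31, 39, 86]) (by decide)
      · exact fam_odd (at_of at27a) (by omega) (t := (lam - 199) / 54) (by omega)
    · rcases Nat.lt_or_ge lam 235 with hl | hl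
      · have : lam = 19 ∨ lam = 73 ∨ lam = 127 ∨ lam = 181 := by omega
        rcases this with h | h | h | h <;> subst h
        · exact at_direct (N := 28) (q := 23) (l := [0, 1, 3, 4, 19, 20, 22, 23]) (by decide)
        · exact at_direct (N := 28) (q := 50) (l := [0, 4, 5, 9, 15, 17, 20, 50]) (by decide)
        · exact at_direct (N := 28) (q := 77) (l := [0, 11, 15, 23, 26, 34, 38, 77]) (by decide)
        · exact at_direct (N := 28) (q := 104) (l := [0, 3, 4, 19, 22, 23, 29, 104]) (by decide)
      · exact fam_odd (at_of at27b) (by omega) (t := (lam - 235) / 54) (by omega)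
    · rcases Nat.lt_or_ge lam 595 with hl | hl
      · have : lam = 109 ∨ lam = 271 ∨ lam = 433 := by omega
        rcases this with h | h | h <;> subst h
        · exact at_direct (N := 28) (q := 68) (l := [0, 3, 29, 32, 37, 38, 41, 68]) (by decide)
        · exact at_direct (N := 28) (q := 149) (l := [0, 5, 15, 17, 20, 22, 32, 149]) (by decide)
        · exact at_direct (N := 28) (q := 230) (l := [0, 1, 10, 25, 26, 35, 37, 230]) (by decide)
      · exact fam_odd (at_of at81a) (by omega) (t := (lam - 595) / 162) (by omega)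
    · rcases Nat.lt_or_ge lam 703 with hl | hl
      · have : lam = 55 ∨ lam = 217 ∨ lam = 379 ∨ lam = 541 := by omega
        rcases this with h | h | h | h <;> subst h
        · exact at_direct (N := 28) (q := 41) (l := [0, 1, 3, 9, 10, 12, 32, 41]) (by decide)
        · exact at_direct (N := 28) (q := 122) (l := [0, 1, 9, 12, 13, 31, 32, 122]) (by decide)
        · exact at_direct (N := 28) (q := 203) (l := [0, 5, 13, 17, 18, 22, 30, 203]) (by decide)
        · exact at_direct (N := 28) (q := 284) (l := [0, 1, 3, 19, 20, 22, 23, 284]) (by decide)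
      · exact fam_odd (at_of at81b) (by omega) (t := (lam - 703) / 162) (by omega)

end Pool.Agent.K3h20.Stan
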