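import Mathlib
import Pool.Agent.K3h20.Stan

/-!
# From near-modular sets to greedy sequences
-/

set_option autoImplicit false

namespace Pool.Agent.K3h20.Stan

/-- the number whose base three digits are the binary digits of `n` -/
def s (n : ℕ) : ℕ :=
  Nat.binaryRec (motive := fun _ => ℕ) 0 (fun b _ r => 3 * r + (if b then 1 else 0)) n

theorem s_zero : s 0 = 0 := by simp [s]

theorem s_even (n : ℕ) : s (2 * n) = 3 * s n := by
  have := Nat.binaryRec_eq (motive := fun _ => ℕ) (zero := 0)
    (bit := fun b _ r => 3 * r + (if b then 1 else 0)) false n (Or.inl rfl)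
  simpa [s, Nat.bit_val] using this

theorem s_odd (n : ℕ) : s (2 * n + 1) = 3 * s n + 1 := by
  have := Nat.binaryRec_eq (motive := fun _ => ℕ) (zero := 0)
    (bit := fun b _ r => 3 * r + (if b then 1 else 0)) true n (Or.inl rfl)
  simpa [s, Nat.bit_val] using this

theorem par (n : ℕ) : (∃ m, n = 2 * m) ∨ ∃ m, n = 2 * m + 1 := by
  rcases Nat.even_or_odd' n with ⟨m, h | h⟩
  · exact Or.inl ⟨m, h⟩
  · exact Or.inr ⟨m, h⟩

theorem s_free : ∀ a b c : ℕ, s a + s c = 2 * s b → a = b ∧ c = b := by
  intro a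
  induction a using Nat.strong_induction_on with
  | _ a ih =>
    intro b c h
    rcases Nat.eq_zero_or_pos a with ha | ha
    · subst ha
      -- need induction on c instead: use a separate argument
      revert b
      induction c using Nat.strong_induction_on with
      | _ c ihc =>
        intro b h
        rcases Nat.eq_zero_or_pos c with hc | hc
        · subst hc
          have hb : s b = 0 := by rw [s_zero] at h; omega
          have : ∀ b : ℕ, s b = 0 → b = 0 := by
            intro b
            induction b using Nat.strong_induction_on with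
            | _ b ihb =>
              intro hb
              rcases par b with ⟨m, rfl⟩ | ⟨m, rfl⟩
              · rw [s_even] at hb
                rcases Nat.eq_zero_or_pos m with hm | hm
                · subst hm; rfl
                · have := ihb m (by omega) (by omega); omega
              · rw [s_odd] at hb; omega
          have := this b hb; omega
        · rw [s_zero, zero_add] at h
          rcases par c with ⟨m, rfl⟩ | ⟨m, rfl⟩ <;> rcases par b with ⟨p, rfl⟩ | ⟨p, rfl⟩ <;>
            simp only [s_even, s_odd] at h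
          · have := ihc m (by omega) p (by rw [s_zero]; omega); omega
          · omega
          · omega
          · omega
    · rcases par a with ⟨m, rfl⟩ | ⟨m, rfl⟩ <;> rcases par b with ⟨p, rfl⟩ | ⟨p, rfl⟩ <;>
        rcases par c with ⟨r, rfl⟩ | ⟨r, rfl⟩ <;> simp only [s_even, s_odd] at h
      · have := ih m (by omega) p r (by omega); omega
      · omega
      · omega
      · omega
      · omega
      · omega
      · omega
      · have := ih m (by omega) p r (by omega); omega

theorem s_cov : ∀ y : ℕ, ∃ i j : ℕ, i ≤ j ∧ y + s i = 2 * s j := by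
  intro y
  induction y using Nat.strong_induction_on with
  | _ y ih =>
    rcases Nat.eq_zero_or_pos y with hy | hy
    · subst hy; exact ⟨0, 0, le_rfl, by simp [s_zero]⟩
    · obtain ⟨i, j, hij, h⟩ := ih (y / 3) (by omega)
      have hmod : y % 3 = 0 ∨ y % 3 = 1 ∨ y % 3 = 2 := by omega
      rcases hmod with h0 | h0 | h0
      · exact ⟨2 * i, 2 * j, by omega, by rw [s_even, s_even]; omega⟩
      · exact ⟨2 * i + 1, 2 * j + 1, by omega, by rw [s_odd, s_odd]; omega⟩
      · exact ⟨2 * i, 2 * j + 1, by omega, by rw [s_even, s_odd]; omega⟩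

theorem s_lt : ∀ i j : ℕ, i < j → s i < s j := by
  intro i j
  induction j using Nat.strong_induction_on generalizing i with
  | _ j ih =>
    intro hij
    rcases par i with ⟨m, rfl⟩ | ⟨m, rfl⟩ <;> rcases par j with ⟨p, rfl⟩ | ⟨p, rfl⟩ <;>
      simp only [s_even, s_odd]
    · have := ih p (by omega) m (by omega); omega
    · rcases Nat.lt_or_ge m p with h | h
      · have := ih p (by omega) m h; omega
      · have : m = p := by omega
        subst this; omega
    · have := ih p (by omega) m (by omega); omega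
    · have := ih p (by omega) m (by omega); omega

theorem s_mono : StrictMono s := fun i j h => s_lt i j h

theorem s_add (j : ℕ) : ∀ i : ℕ, i < 2 ^ j → s (2 ^ j + i) = 3 ^ j + s i := by
  induction j with
  | zero =>
    intro i hi
    have : i = 0 := by simpa using hi
    subst this
    have := s_odd 0
    simpa [s_zero] using this
  | succ j ih =>
    intro i hi
    rcases par i with ⟨m, rfl⟩ | ⟨m, rfl⟩
    · have h1 : 2 ^ (j + 1) + 2 * m = 2 * (2 ^ j + m) := by ring
      rw [h1, s_even, s_even, ih m (by rw [pow_succ] at hi; omega)]; ring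
    · have h1 : 2 ^ (j + 1) + (2 * m + 1) = 2 * (2 ^ j + m) + 1 := by ring
      rw [h1, s_odd, s_odd, ih m (by rw [pow_succ] at hi; omega)]; ring

theorem s_pow (j : ℕ) : s (2 ^ j) = 3 ^ j := by
  have := s_add j 0 (by positivity)
  simpa [s_zero] using this

theorem s_top (j : ℕ) : 2 * s (2 ^ j - 1) + 1 = 3 ^ j := by
  induction j with
  | zero => simp [s_zero]
  | succ j ih =>
    have hp : 1 ≤ 2 ^ j := Nat.one_le_two_pow
    have h1 : 2 ^ (j + 1) - 1 = 2 * (2 ^ j - 1) + 1 := by rw [pow_succ]; omega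
    rw [h1, s_odd, pow_succ]; omega

/-- the set of terms -/
def B (N : ℕ) (A : Finset ℕ) (v : ℕ) : Prop := ∃ a ∈ A, ∃ n : ℕ, a + N * s n = v

theorem B_free {N : ℕ} {A : Finset ℕ} (h : NM N A) {x y z : ℕ} (hx : B N A x) (hy : B N A y)
    (hz : B N A z) (he : x + z = 2 * y) : x = y := by
  obtain ⟨a, ha, n, rfl⟩ := hx
  obtain ⟨b, hb, m, rfl⟩ := hy
  obtain ⟨c, hc, p, rfl⟩ := hz
  have he' : ((a : ℤ) + N * s n) + (c + N * s p) = 2 * (b + N * s m) := by exact_mod_cast he
  obtain ⟨e1, e2⟩ := h.2.1 a ha b hb c hc ⟨2 * s m - s n - s p, by linear_combination he'⟩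
  subst e1; subst e2
  have h3 : N * (s n + s p) = N * (2 * s m) := by
    have : N * (s n + s p) = N * s n + N * s p := by ring
    have : N * (2 * s m) = 2 * (N * s m) := by ring
    omega
  have h4 := Nat.eq_of_mul_eq_mul_left h.1 h3
  obtain ⟨e3, e4⟩ := s_free n m p h4
  rw [e3]

theorem B_cov {N q : ℕ} {A : Finset ℕ} (h : NM N A) (hq : ∀ x ∈ A, x ≤ q) {v : ℕ}
    (hv : 2 * q ≤ v) (hB : ¬ B N A v) : ∃ x y : ℕ, B N A x ∧ B N A y ∧ x < y ∧ x + v = 2 * y := by
  have hN : (0 : ℤ) < N := by exact_mod_cast h.1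
  rcases h.2.2 (v : ℤ) with ⟨a, ha, w, hw⟩ | ⟨x, hx, y, hy, hxy, w, hw⟩
  · have hav : a ≤ v := by have := hq a ha; omega
    have hw0 : 0 ≤ w := by
      by_contra hneg
      have h1 : (N : ℤ) * w < 0 := mul_neg_of_pos_of_neg hN (by omega)
      have h2 : (a : ℤ) ≤ v := by exact_mod_cast hav
      omega
    obtain ⟨w', rfl⟩ := Int.eq_ofNat_of_zero_le hw0
    have hv2 : v = a + N * w' := by
      have : (v : ℤ) = a + N * w' := by linear_combination hw
      exact_mod_cast this
    obtain ⟨i, j, hij, hs⟩ := s_cov w'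
    rcases Nat.lt_or_ge i j with hlt | hge
    · refine ⟨a + N * s i, a + N * s j, ⟨a, ha, i, rfl⟩, ⟨a, ha, j, rfl⟩, ?_, ?_⟩
      · have := Nat.mul_lt_mul_of_pos_left (s_lt i j hlt) h.1
        omega
      · rw [hv2]
        have : N * (w' + s i) = N * (2 * s j) := by rw [hs]
        linarith
    · have hij' : i = j := by omega
      subst hij'
      exfalso; apply hB
      refine ⟨a, ha, i, ?_⟩
      have : w' = s i := by omega
      rw [hv2, this]
  · have hw0 : 0 ≤ w := by
      by_contra hneg
      have h1 : (N : ℤ) * w < 0 := mul_neg_of_pos_of_neg hN (by omega)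
      have h2 : (2 * q : ℤ) ≤ v := by exact_mod_cast hv
      have h3 : (y : ℤ) ≤ q := by exact_mod_cast hq y hy
      have h4 : (0 : ℤ) ≤ x := by positivity
      omega
    obtain ⟨w', rfl⟩ := Int.eq_ofNat_of_zero_le hw0
    have hv2 : v + x = 2 * y + N * w' := by
      have : (v : ℤ) + x = 2 * y + N * w' := by linear_combination hw
      exact_mod_cast this
    obtain ⟨i, j, hij, hs⟩ := s_cov w'
    refine ⟨x + N * s i, y + N * s j, ⟨x, hx, i, rfl⟩, ⟨y, hy, j, rfl⟩, ?_, ?_⟩
    · have : s i ≤ s j := s_mono.monotone hij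
      have := Nat.mul_le_mul_left N this
      omega
    · have : N * (w' + s i) = N * (2 * s j) := by rw [hs]
      linarith

open Classical in
theorem count_block {N k q : ℕ} {A : Finset ℕ} (h : AT N k q A) (j : ℕ)
    (hj : 2 * q < N * (3 ^ j + 1)) :
    Nat.count (B N A) (N * 3 ^ j) = 2 ^ (k + j) ∧
    Nat.count (B N A) (q + N * s (2 ^ j - 1)) + 1 = 2 ^ (k + j) := by
  obtain ⟨hn, h0, hc, hqA, hm⟩ := h
  have hNpos := hn.1
  have htop := s_top j
  have hM : q + N * s (2 ^ j - 1) < N * 3 ^ j := by
    have e1 : N * (2 * s (2 ^ j - 1) + 1) = N * 3 ^ j := by rw [htop]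
    have e2 : N * (2 * s (2 ^ j - 1) + 1) = 2 * (N * s (2 ^ j - 1)) + N := by ring
    have e3 : N * (3 ^ j + 1) = N * 3 ^ j + N := by ring
    omega
  set F : Finset ℕ := (A ×ˢ Finset.range (2 ^ j)).image (fun p => p.1 + N * s p.2) with hF
  have hFcard : F.card = 2 ^ (k + j) := by
    rw [hF, Finset.card_image_of_injOn, Finset.card_product, hc, Finset.card_range, pow_add]
    rintro ⟨a, n⟩ hp ⟨b, m⟩ hp' he
    simp only [Finset.coe_product, Set.mem_prod, Finset.mem_coe] at hp hp'
    simp only at he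
    have e1 : a = b := by
      apply hn.inj hp.1 hp'.1
      refine ⟨(s m : ℤ) - s n, ?_⟩
      have : (a : ℤ) + N * s n = b + N * s m := by exact_mod_cast he
      linear_combination this
    subst e1
    have e2 : N * s n = N * s m := by omega
    have e3 := Nat.eq_of_mul_eq_mul_left hNpos e2
    rw [s_mono.injective e3]
  have hset : (Finset.range (N * 3 ^ j)).filter (B N A) = F := by
    ext v
    simp only [Finset.mem_filter, Finset.mem_range, hF, Finset.mem_image, Finset.mem_product,
      Prod.exists]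
    constructor
    · rintro ⟨hv, a, ha, n, rfl⟩
      refine ⟨a, n, ⟨ha, ?_⟩, rfl⟩
      by_contra hge
      have h1 : s (2 ^ j) ≤ s n := s_mono.monotone (by omega)
      rw [s_pow] at h1
      have := Nat.mul_le_mul_left N h1
      omega
    · rintro ⟨a, n, ⟨ha, hnj⟩, rfl⟩
      refine ⟨?_, a, ha, n, rfl⟩
      have h1 : s n ≤ s (2 ^ j - 1) := s_mono.monotone (by omega)
      have h2 := Nat.mul_le_mul_left N h1
      have h3 := hm a ha
      omega
  have hcount : Nat.count (B N A) (N * 3 ^ j) = 2 ^ (k + j) := by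
    rw [Nat.count_eq_card_filter_range, hset, hFcard]
  refine ⟨hcount, ?_⟩
  -- no element strictly between the top and N*3^j
  have hset2 : (Finset.range (q + N * s (2 ^ j - 1) + 1)).filter (B N A) = F := by
    rw [← hset]
    ext v
    simp only [Finset.mem_filter, Finset.mem_range]
    constructor
    · rintro ⟨hv, hB⟩; exact ⟨by omega, hB⟩
    · rintro ⟨hv, hB⟩
      refine ⟨?_, hB⟩
      obtain ⟨a, ha, n, rfl⟩ := hB
      have hnj : n < 2 ^ j := by
        by_contra hge
        have h1 : s (2 ^ j) ≤ s n := s_mono.monotone (by omega)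
        rw [s_pow] at h1
        have := Nat.mul_le_mul_left N h1
        omega
      have h1 : s n ≤ s (2 ^ j - 1) := s_mono.monotone (by omega)
      have h2 := Nat.mul_le_mul_left N h1
      have h3 := hm a ha
      omega
  have hBtop : B N A (q + N * s (2 ^ j - 1)) := ⟨q, hqA, _, rfl⟩
  have h5 : Nat.count (B N A) (q + N * s (2 ^ j - 1) + 1) = 2 ^ (k + j) := by
    rw [Nat.count_eq_card_filter_range, hset2, hFcard]
  rw [Nat.count_succ, if_pos hBtop] at h5
  exact h5

theorem B_shift {N k q : ℕ} {A : Finset ℕ} (h : AT N k q A) (j : ℕ)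
    (hj : 2 * q < N * (3 ^ j + 1)) {v : ℕ} (hv : v < N * 3 ^ j) :
    B N A (N * 3 ^ j + v) ↔ B N A v := by
  obtain ⟨hn, h0, hc, hqA, hm⟩ := h
  have hNpos := hn.1
  have htop := s_top j
  have hM : q + N * s (2 ^ j - 1) < N * 3 ^ j := by
    have e1 : N * (2 * s (2 ^ j - 1) + 1) = N * 3 ^ j := by rw [htop]
    have e2 : N * (2 * s (2 ^ j - 1) + 1) = 2 * (N * s (2 ^ j - 1)) + N := by ring
    have e3 : N * (3 ^ j + 1) = N * 3 ^ j + N := by ring
    omega
  constructor
  · rintro ⟨a, ha, n, he⟩
    have hnj : 2 ^ j ≤ n := by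
      by_contra hlt
      have h1 : s n ≤ s (2 ^ j - 1) := s_mono.monotone (by omega)
      have h2 := Nat.mul_le_mul_left N h1
      have h3 := hm a ha
      omega
    have hnj2 : n < 2 ^ (j + 1) := by
      by_contra hge
      have h1 : s (2 ^ (j + 1)) ≤ s n := s_mono.monotone (by omega)
      rw [s_pow] at h1
      have h2 := Nat.mul_le_mul_left N h1
      have e3 : N * 3 ^ (j + 1) = 3 * (N * 3 ^ j) := by ring
      have : 0 < N * 3 ^ j := by positivity
      omega
    obtain ⟨i, rfl⟩ := Nat.exists_eq_add_of_le hnj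
    have hi : i < 2 ^ j := by rw [pow_succ] at hnj2; omega
    rw [s_add j i hi] at he
    refine ⟨a, ha, i, ?_⟩
    have e4 : N * (3 ^ j + s i) = N * 3 ^ j + N * s i := by ring
    omega
  · rintro ⟨a, ha, n, he⟩
    have hnj : n < 2 ^ j := by
      by_contra hge
      have h1 : s (2 ^ j) ≤ s n := s_mono.monotone (by omega)
      rw [s_pow] at h1
      have := Nat.mul_le_mul_left N h1
      omega
    refine ⟨a, ha, 2 ^ j + n, ?_⟩
    rw [s_add j n hnj]
    have e4 : N * (3 ^ j + s n) = N * 3 ^ j + N * s n := by ring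
    omega

theorem B_infinite {N : ℕ} {A : Finset ℕ} (hN : 0 < N) (h0 : 0 ∈ A) :
    {v | B N A v}.Infinite := by
  apply Set.infinite_of_injective_forall_mem (f := fun n : ℕ => N * s n)
  · intro n m h
    have h' : N * s n = N * s m := h
    exact s_mono.injective (Nat.eq_of_mul_eq_mul_left hN h')
  · intro n
    exact ⟨0, h0, n, by simp⟩

open Classical in
/-- Every attained value is the character of an independent greedy sequence. -/
theorem At.seq {lam : ℕ} (h : At lam) :
    ∃ a : ℕ → ℕ, ∃ t : ℕ, StrictMono a ∧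
      (∀ i j k : ℕ, i < j → j < k → a i + a k ≠ 2 * a j) ∧
      (∀ n : ℕ, t < n → ∀ m : ℕ, a (n - 1) < m → m < a n →
        ∃ i j : ℕ, i < j ∧ j < n ∧ a i + m = 2 * a j) ∧
      (∃ k : ℕ, ∀ k' : ℕ, k ≤ k' →
        (∀ i : ℕ, i < 2 ^ k' → a (2 ^ k' + i) = a (2 ^ k') + a i) ∧
        ((a (2 ^ k') : ℤ) = 2 * (a (2 ^ k' - 1) : ℤ) - (lam : ℤ) + 1)) := by
  obtain ⟨N, k, q, A, hA, hq⟩ := h
  have hA' := hA
  obtain ⟨hn, h0, hc, hqA, hm⟩ := hA'
  have hNpos := hn.1
  have hinf := B_infinite hNpos h0
  have hmono : StrictMono (Nat.nth (B N A)) := Nat.nth_strictMono hinf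
  have hmem : ∀ n, B N A (Nat.nth (B N A) n) := fun n => Nat.nth_mem_of_infinite hinf n
  refine ⟨Nat.nth (B N A), 2 * q, hmono, ?_, ?_, k + 2 * q, ?_⟩
  · intro i j l hij hjl he
    have := B_free hn (hmem i) (hmem j) (hmem l) he
    exact absurd this (hmono hij).ne
  · intro n hn' m hm1 hm2
    have hge : 2 * q ≤ m := by
      have h1 : n - 1 ≤ Nat.nth (B N A) (n - 1) := hmono.id_le (n - 1)
      omega
    have hnB : ¬ B N A m := by
      intro hB
      have h2 : Nat.nth (B N A) (Nat.count (B N A) m) = m := Nat.nth_count hB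
      rw [← h2] at hm1 hm2
      have h3 := hmono.lt_iff_lt.1 hm1
      have h4 := hmono.lt_iff_lt.1 hm2
      omega
    obtain ⟨x, y, hx, hy, hxy, he⟩ := B_cov hn hm hge hnB
    have ex : Nat.nth (B N A) (Nat.count (B N A) x) = x := Nat.nth_count hx
    have ey : Nat.nth (B N A) (Nat.count (B N A) y) = y := Nat.nth_count hy
    refine ⟨Nat.count (B N A) x, Nat.count (B N A) y, ?_, ?_, ?_⟩
    · rw [← hmono.lt_iff_lt, ex, ey]; exact hxy
    · rw [← hmono.lt_iff_lt, ey]; omega
    · rw [ex, ey]; exact he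
  · intro k' hk'
    obtain ⟨j, rfl⟩ : ∃ j, k' = k + j := ⟨k' - k, by omega⟩
    have hjq : 2 * q ≤ j := by omega
    have hj : 2 * q < N * (3 ^ j + 1) := by
      have h1 : j < 3 ^ j := Nat.lt_pow_self (by norm_num)
      have h2 : 1 * (3 ^ j + 1) ≤ N * (3 ^ j + 1) := Nat.mul_le_mul_right _ hNpos
      omega
    obtain ⟨hc1, hc2⟩ := count_block hA j hj
    have hX : B N A (N * 3 ^ j) := ⟨0, h0, 2 ^ j, by rw [s_pow]; simp⟩
    have hX' : Nat.nth (B N A) (2 ^ (k + j)) = N * 3 ^ j := by
      rw [← hc1]; exact Nat.nth_count hX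
    have hT : B N A (q + N * s (2 ^ j - 1)) := ⟨q, hqA, _, rfl⟩
    have hT' : Nat.nth (B N A) (2 ^ (k + j) - 1) = q + N * s (2 ^ j - 1) := by
      have : 2 ^ (k + j) - 1 = Nat.count (B N A) (q + N * s (2 ^ j - 1)) := by omega
      rw [this]; exact Nat.nth_count hT
    constructor
    · intro i hi
      rw [hX']
      set v := Nat.nth (B N A) i with hv
      have hvX : v < N * 3 ^ j := by
        rw [← hX', hv]; exact hmono hi
      have hvB : B N A v := hmem i
      have hci : Nat.count (B N A) v = i := Nat.count_nth_of_infinite hinf i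
      have hB2 : B N A (N * 3 ^ j + v) := (B_shift hA j hj hvX).2 hvB
      have hadd : Nat.count (B N A) (N * 3 ^ j + v) = 2 ^ (k + j) + i := by
        rw [Nat.count_add, hc1]
        congr 1
        rw [← hci]
        rw [Nat.count_eq_card_filter_range, Nat.count_eq_card_filter_range]
        congr 1
        ext u
        simp only [Finset.mem_filter, Finset.mem_range]
        constructor
        · rintro ⟨h1, h2⟩
          exact ⟨h1, (B_shift hA j hj (by omega)).1 h2⟩
        · rintro ⟨h1, h2⟩
          exact ⟨h1, (B_shift hA j hj (by omega)).2 h2⟩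
      rw [← hadd]; exact Nat.nth_count hB2
    · rw [hX', hT']
      have htop := s_top j
      have e1 : N * (2 * s (2 ^ j - 1) + 1) = N * 3 ^ j := by rw [htop]
      have e1' : (N : ℤ) * (2 * s (2 ^ j - 1) + 1) = N * 3 ^ j := by exact_mod_cast e1
      have hq' : (2 : ℤ) * q + 1 = lam + N := by exact_mod_cast hq
      push_cast
      linear_combination -hq' - e1'

end Pool.Agent.K3h20.Stan
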