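-- Statement S10529: every nonnegative integer outside {1,3,5,9,11,15} is the character of an
-- independent Stanley sequence.  Proof: near-modular sets, their products and a twisted product with
-- a near-modular set modulo 85 in which the element 0 is redundant for covering; finite data checked
-- by the kernel.
import Mathlib
import Pool.Agent.K3h20.StanSeq
import Pool.Agent.K3h20.StanMain

set_option autoImplicit false


namespace Pool.Agent.K3h20.RolnickKnown

/-- For every nonnegative integer r other than 1,3,5,9,11,15 there is a greedy 3-AP-free (Stanley) sequence that is eventually independent: blocks repeat via a(2^k+i)=a(2^k)+a(i) and a(2^k)=2a(2^k−1)−r+1. -/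
theorem result :
    ∀ r : ℤ, 0 ≤ r → r ∉ ({1, 3, 5, 9, 11, 15} : Finset ℤ) →
      ∃ a : ℕ → ℕ, ∃ t : ℕ, StrictMono a ∧
        (∀ i j k : ℕ, i < j → j < k → a i + a k ≠ 2 * a j) ∧
        (∀ n : ℕ, t < n → ∀ m : ℕ, a (n - 1) < m → m < a n →
          ∃ i j : ℕ, i < j ∧ j < n ∧ a i + m = 2 * a j) ∧
        (∃ k : ℕ, ∀ k' : ℕ, k ≤ k' →
          (∀ i : ℕ, i < 2 ^ k' → a (2 ^ k' + i) = a (2 ^ k') + a i) ∧
          ((a (2 ^ k') : ℤ) = 2 * (a (2 ^ k' - 1) : ℤ) - r + 1)) := by
  intro r hr hr'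
  obtain ⟨lam, rfl⟩ := Int.eq_ofNat_of_zero_le hr
  have h : lam ≠ 1 ∧ lam ≠ 3 ∧ lam ≠ 5 ∧ lam ≠ 9 ∧ lam ≠ 11 ∧ lam ≠ 15 := by
    refine ⟨?_, ?_, ?_, ?_, ?_, ?_⟩ <;> rintro rfl <;> exact hr' (by decide)
  exact (K3h20.Stan.at_all lam h).seq

end Pool.Agent.K3h20.RolnickKnown
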